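import Mathlib

/-!
# Complementary minors, with sign constant one

`K : Y × X`, `E : F × Y` integer matrices with `E K = 0`, both of full rank modulo every prime: for every commutative ring
and every `S : Y × X` over it, `det [K | S] = c det (E S)` with one sign `c`.
-/

set_option autoImplicit false

namespace Pool.Agent.Helper16.PD

open Matrix

variable {X : Type} [Fintype X] [DecidableEq X]

section gen

variable {R : Type*} [CommRing R]

/-- `det [K | S]`. -/
def dK (K S : Matrix (X ⊕ X) X R) : R := (fromCols K S).det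

/-- `det (E S)`. -/
def dE (E : Matrix X (X ⊕ X) R) (S : Matrix (X ⊕ X) X R) : R := (E * S).det

theorem proportional (K S S₁ : Matrix (X ⊕ X) X R) (E : Matrix X (X ⊕ X) R) (h : E * K = 0) :
    dK K S₁ ^ Fintype.card X * (dK K S * dE E S₁) = dK K S₁ ^ Fintype.card X * (dK K S₁ * dE E S) := by
  set Q : Matrix (X ⊕ X) (X ⊕ X) R := fromCols K S₁ with hQ
  set d : R := dK K S₁ with hd
  have hdQ : Q.det = d := rfl
  obtain ⟨a, b, hab⟩ : ∃ a b : Matrix X X R, d • S = K * a + S₁ * b := by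
    refine ⟨(Q.adjugate * S).toRows₁, (Q.adjugate * S).toRows₂, ?_⟩
    rw [← fromCols_mul_fromRows, ← hQ, fromRows_toRows, ← Matrix.mul_assoc, mul_adjugate, hdQ, Matrix.smul_mul, Matrix.one_mul]
  have h1 : fromCols K (d • S) = Q * fromBlocks 1 a 0 b := by
    rw [hQ, fromCols_mul_fromBlocks, Matrix.mul_one, Matrix.mul_zero, add_zero, hab]
  have h2 : (fromCols K (d • S)).det = d ^ Fintype.card X * dK K S := by
    have e1 : fromCols K (d • S) = fromCols K S * fromBlocks 1 0 0 (d • (1 : Matrix X X R)) := by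
      rw [fromCols_mul_fromBlocks, Matrix.mul_one, Matrix.mul_zero, add_zero, Matrix.mul_zero, zero_add, Matrix.mul_smul,
        Matrix.mul_one]
    rw [e1, det_mul, det_fromBlocks_zero₂₁, det_one, one_mul, det_smul, det_one, mul_one, mul_comm]
    rfl
  have h3 : (fromCols K (d • S)).det = d * b.det := by
    rw [h1, det_mul, det_fromBlocks_zero₂₁, det_one, one_mul, hdQ]
  have h4 : d ^ Fintype.card X * dE E S = dE E S₁ * b.det := by
    have e1 : (E * (d • S)).det = d ^ Fintype.card X * dE E S := by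
      rw [Matrix.mul_smul, det_smul]
      rfl
    rw [← e1, hab, Matrix.mul_add, ← Matrix.mul_assoc, h, Matrix.zero_mul, zero_add, ← Matrix.mul_assoc, det_mul]
    rfl
  calc d ^ Fintype.card X * (dK K S * dE E S₁) = (d ^ Fintype.card X * dK K S) * dE E S₁ := by ring
    _ = (d * b.det) * dE E S₁ := by rw [← h2, h3]
    _ = d * (dE E S₁ * b.det) := by ring
    _ = d * (d ^ Fintype.card X * dE E S) := by rw [h4]
    _ = _ := by ring

end gen

section field

variable {k : Type*} [Field k]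

theorem exists_S (K : Matrix (X ⊕ X) X k) (E : Matrix X (X ⊕ X) k) (h : E * K = 0)
    (hK : ∀ a : X → k, K *ᵥ a = 0 → a = 0) (hE : ∀ a : X → k, a ᵥ* E = 0 → a = 0) :
    ∃ S : Matrix (X ⊕ X) X k, dE E S ≠ 0 ∧ dK K S ≠ 0 := by
  obtain ⟨T, hT⟩ : ∃ T : Matrix X (X ⊕ X) k, T * K = 1 := by
    have h1 : Function.Injective (toLin' K) := by
      rw [← LinearMap.ker_eq_bot, LinearMap.ker_eq_bot']
      intro a ha
      exact hK a (by simpa using ha)
    obtain ⟨g, hg⟩ := (toLin' K).exists_leftInverse_of_injective (LinearMap.ker_eq_bot.2 h1)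
    refine ⟨LinearMap.toMatrix' g, ?_⟩
    have h2 := congrArg LinearMap.toMatrix' hg
    rw [LinearMap.toMatrix'_comp, LinearMap.toMatrix'_toLin', LinearMap.toMatrix'_id] at h2
    exact h2
  obtain ⟨S, hS⟩ : ∃ S : Matrix (X ⊕ X) X k, E * S = 1 := by
    have h1 : Function.Injective (toLin' Eᵀ) := by
      rw [← LinearMap.ker_eq_bot, LinearMap.ker_eq_bot']
      intro a ha
      exact hE a (by simpa [mulVec_transpose] using ha)
    obtain ⟨g, hg⟩ := (toLin' Eᵀ).exists_leftInverse_of_injective (LinearMap.ker_eq_bot.2 h1)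
    refine ⟨(LinearMap.toMatrix' g)ᵀ, ?_⟩
    have h2 := congrArg LinearMap.toMatrix' hg
    rw [LinearMap.toMatrix'_comp, LinearMap.toMatrix'_toLin', LinearMap.toMatrix'_id] at h2
    have h3 := congrArg transpose h2
    rw [transpose_mul, transpose_transpose, transpose_one] at h3
    exact h3
  refine ⟨S, ?_, ?_⟩
  · unfold dE
    rw [hS, det_one]
    exact one_ne_zero
  · intro h0
    have h1 : fromRows T E * fromCols K S = fromBlocks 1 (T * S) 0 1 := by
      rw [fromRows_mul_fromCols, hT, h, hS]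
    have h2 := congrArg det h1
    rw [det_mul, det_fromBlocks_zero₂₁, det_one, one_mul] at h2
    unfold dK at h0
    rw [h0, mul_zero] at h2
    exact zero_ne_one h2

end field

theorem dK_map {R S : Type*} [CommRing R] [CommRing S] (φ : R →+* S) (K T : Matrix (X ⊕ X) X R) :
    dK (K.map φ) (T.map φ) = φ (dK K T) := by
  unfold dK
  rw [RingHom.map_det]
  congr 1
  ext i j
  rcases j with j | j <;> rfl

theorem dE_map {R S : Type*} [CommRing R] [CommRing S] (φ : R →+* S) (E : Matrix X (X ⊕ X) R) (T : Matrix (X ⊕ X) X R) :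
    dE (E.map φ) (T.map φ) = φ (dE E T) := by
  unfold dE
  rw [RingHom.map_det, RingHom.mapMatrix_apply, Matrix.map_mul]

/-- The lift of a matrix modulo `p`. -/
theorem exists_lift (K : Matrix (X ⊕ X) X ℤ) (E : Matrix X (X ⊕ X) ℤ) (h : E * K = 0) (p : ℕ) [Fact p.Prime]
    (hK : ∀ a : X → ZMod p, (K.map (Int.castRingHom (ZMod p))) *ᵥ a = 0 → a = 0)
    (hE : ∀ a : X → ZMod p, a ᵥ* (E.map (Int.castRingHom (ZMod p))) = 0 → a = 0) :
    ∃ S : Matrix (X ⊕ X) X ℤ, ¬ (p : ℤ) ∣ dE E S ∧ ¬ (p : ℤ) ∣ dK K S := by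
  obtain ⟨S, h1, h2⟩ := exists_S (K.map (Int.castRingHom (ZMod p))) (E.map (Int.castRingHom (ZMod p)))
    (by rw [← Matrix.map_mul, h]; ext i j; simp) hK hE
  have hsurj : Function.Surjective (Int.castRingHom (ZMod p)) := ZMod.ringHom_surjective _
  let S' : Matrix (X ⊕ X) X ℤ := Matrix.of fun i j => Function.surjInv hsurj (S i j)
  have hS' : S'.map (Int.castRingHom (ZMod p)) = S := by
    ext i j
    exact Function.surjInv_eq hsurj (S i j)
  refine ⟨S', ?_, ?_⟩
  · intro h3
    apply h1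
    rw [← hS', dE_map]
    exact (ZMod.intCast_zmod_eq_zero_iff_dvd _ p).2 h3
  · intro h3
    apply h2
    rw [← hS', dK_map]
    exact (ZMod.intCast_zmod_eq_zero_iff_dvd _ p).2 h3

/-- **Complementary minors.** -/
theorem minors (K : Matrix (X ⊕ X) X ℤ) (E : Matrix X (X ⊕ X) ℤ) (h : E * K = 0)
    (hK : ∀ p : ℕ, p.Prime → ∀ a : X → ZMod p, (K.map (Int.castRingHom (ZMod p))) *ᵥ a = 0 → a = 0)
    (hE : ∀ p : ℕ, p.Prime → ∀ a : X → ZMod p, a ᵥ* (E.map (Int.castRingHom (ZMod p))) = 0 → a = 0) :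
    ∃ c : ℤ, (c = 1 ∨ c = -1) ∧ ∀ (R : Type) [CommRing R] (S : Matrix (X ⊕ X) X R),
      dK (K.map (Int.castRingHom R)) S = (c : R) * dE (E.map (Int.castRingHom R)) S := by
  classical
  obtain ⟨S₁, he₁, hd₁⟩ := @exists_lift X _ _ K E h 2 ⟨Nat.prime_two⟩ (hK 2 Nat.prime_two) (hE 2 Nat.prime_two)
  set d₁ := dK K S₁ with hd
  set e₁ := dE E S₁ with he
  have hd0 : d₁ ≠ 0 := fun h0 => hd₁ (by rw [h0]; exact dvd_zero _)
  have he0 : e₁ ≠ 0 := fun h0 => he₁ (by rw [h0]; exact dvd_zero _)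
  -- the universal identity
  have key : ∀ (A : Type) [CommRing A] [IsDomain A] [CharZero A] (S : Matrix (X ⊕ X) X A),
      dK (K.map (Int.castRingHom A)) S * (e₁ : A) = (d₁ : A) * dE (E.map (Int.castRingHom A)) S := by
    intro A _ _ _ S
    have h1 := proportional (K.map (Int.castRingHom A)) S (S₁.map (Int.castRingHom A)) (E.map (Int.castRingHom A))
      (by rw [← Matrix.map_mul, h]; ext i j; simp)
    rw [dK_map, dE_map] at h1
    have h2 : ((Int.castRingHom A) (dK K S₁)) ^ Fintype.card X ≠ 0 := by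
      apply pow_ne_zero
      simpa using hd0
    have h3 := mul_left_cancel₀ h2 h1
    simpa using h3
  have keyZ : ∀ S : Matrix (X ⊕ X) X ℤ, dK K S * e₁ = d₁ * dE E S := by
    intro S
    have h1 := key ℤ S
    have e1 : K.map (Int.castRingHom ℤ) = K := by ext i j; simp
    have e2 : E.map (Int.castRingHom ℤ) = E := by ext i j; simp
    rw [e1, e2] at h1
    simpa using h1
  -- the constant
  have habs : d₁.natAbs = e₁.natAbs := by
    have hg : 0 < Nat.gcd d₁.natAbs e₁.natAbs := Nat.gcd_pos_of_pos_left _ (Int.natAbs_pos.2 hd0)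
    obtain ⟨g, d', e', hgpos, hcop, h1, h2⟩ := Nat.exists_coprime' (m := d₁.natAbs) (n := e₁.natAbs) hg
    have hrel : ∀ S : Matrix (X ⊕ X) X ℤ, (dK K S).natAbs * e' = d' * (dE E S).natAbs := by
      intro S
      have h3 := congrArg Int.natAbs (keyZ S)
      rw [Int.natAbs_mul, Int.natAbs_mul, h1, h2] at h3
      have h4 : g * ((dK K S).natAbs * e') = g * (d' * (dE E S).natAbs) := by
        calc _ = (dK K S).natAbs * (e' * g) := by ring
          _ = _ := by rw [h3]; ring
      exact Nat.eq_of_mul_eq_mul_left hgpos h4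
    have hd' : d' = 1 := by
      by_contra hne
      obtain ⟨p, hp, hpd⟩ := Nat.exists_prime_and_dvd hne
      haveI : Fact p.Prime := ⟨hp⟩
      obtain ⟨S, -, h4⟩ := exists_lift K E h p (hK p hp) (hE p hp)
      have h5 : p ∣ (dK K S).natAbs * e' := by
        rw [hrel S]
        exact Dvd.dvd.mul_right hpd _
      rcases hp.dvd_mul.1 h5 with h6 | h6
      · exact h4 (Int.natCast_dvd.2 h6)
      · exact hp.one_lt.ne' (Nat.dvd_one.1 (hcop ▸ Nat.dvd_gcd hpd h6))
    have he' : e' = 1 := by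
      by_contra hne
      obtain ⟨p, hp, hpe⟩ := Nat.exists_prime_and_dvd hne
      haveI : Fact p.Prime := ⟨hp⟩
      obtain ⟨S, h4, -⟩ := exists_lift K E h p (hK p hp) (hE p hp)
      have h5 : p ∣ d' * (dE E S).natAbs := by
        rw [← hrel S]
        exact Dvd.dvd.mul_left hpe _
      rcases hp.dvd_mul.1 h5 with h6 | h6
      · exact hp.one_lt.ne' (Nat.dvd_one.1 (hcop ▸ Nat.dvd_gcd h6 hpe))
      · exact h4 (Int.natCast_dvd.2 h6)
    rw [h1, h2, hd', he']
  obtain ⟨c, hc, hce⟩ : ∃ c : ℤ, (c = 1 ∨ c = -1) ∧ d₁ = c * e₁ := by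
    rcases Int.natAbs_eq_natAbs_iff.1 habs with h1 | h1
    · exact ⟨1, Or.inl rfl, by rw [one_mul, h1]⟩
    · exact ⟨-1, Or.inr rfl, by rw [h1]; ring⟩
  refine ⟨c, hc, ?_⟩
  intro R _ S
  let A := MvPolynomial ((X ⊕ X) × X) ℤ
  let U : Matrix (X ⊕ X) X A := Matrix.of fun i j => MvPolynomial.X (i, j)
  have h1 : dK (K.map (Int.castRingHom A)) U = (c : A) * dE (E.map (Int.castRingHom A)) U := by
    have h2 := key A U
    rw [hce] at h2
    have h3 : (e₁ : A) ≠ 0 := by exact_mod_cast he0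
    apply mul_right_cancel₀ h3
    rw [h2]
    push_cast
    ring
  let φ : A →+* R := MvPolynomial.eval₂Hom (Int.castRingHom R) fun ij => S ij.1 ij.2
  have hU : U.map φ = S := by
    ext i j
    exact MvPolynomial.eval₂Hom_X' _ _ (i, j)
  have hK' : (K.map (Int.castRingHom A)).map φ = K.map (Int.castRingHom R) := by
    ext i j
    simp [φ]
  have hE' : (E.map (Int.castRingHom A)).map φ = E.map (Int.castRingHom R) := by
    ext i j
    simp [φ]
  have h4 := congrArg φ h1
  rw [map_mul, ← dK_map, ← dE_map, hU, hK', hE'] at h4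
  simpa using h4

end Pool.Agent.Helper16.PD
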