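import Mathlib

/-!
# Sorting a list by a class function
-/

set_option autoImplicit false

namespace Pool.Agent.Helper16.PD

variable {α : Type*}

/-- The letters of `W`, class after class. -/
def byc (W : List α) (c : α → ℕ) (k : ℕ) : List α := (List.range k).flatMap fun i => W.filter fun a => c a = i

theorem mem_byc {W : List α} {c : α → ℕ} {k : ℕ} {a : α} : a ∈ byc W c k ↔ a ∈ W ∧ c a < k := by
  simp only [byc, List.mem_flatMap, List.mem_range, List.mem_filter, decide_eq_true_eq]
  constructor
  · rintro ⟨i, hi, ha, rfl⟩
    exact ⟨ha, hi⟩
  · rintro ⟨ha, hk⟩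
    exact ⟨_, hk, ha, rfl⟩

/-- If `adj a b` implies that `a` and `b` are in the same class, the rearranged list keeps every relation `ord` between adjacent letters. -/
theorem byc_pairwise {W : List α} {c : α → ℕ} (k : ℕ) {adj ord : α → α → Prop}
    (hc : ∀ a ∈ W, ∀ b ∈ W, adj a b → c a = c b) (hW : W.Pairwise fun a b => adj a b → ord a b) :
    (byc W c k).Pairwise fun a b => adj a b → ord a b := by
  unfold byc
  rw [List.pairwise_flatMap]
  refine ⟨fun i _ => hW.filter _, ?_⟩
  refine List.pairwise_lt_range.imp ?_
  intro i j hij a ha b hb hab
  rw [List.mem_filter, decide_eq_true_eq] at ha hb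
  have h := hc a ha.1 b hb.1 hab
  omega

theorem byc_nodup {W : List α} {c : α → ℕ} (k : ℕ) (hW : W.Nodup) : (byc W c k).Nodup := by
  unfold byc
  rw [List.nodup_flatMap]
  refine ⟨fun i _ => hW.filter _, ?_⟩
  refine List.pairwise_lt_range.imp ?_
  intro i j hij a ha b
  rw [List.mem_filter, decide_eq_true_eq] at ha b
  omega

theorem byc_perm {W : List α} {c : α → ℕ} {k : ℕ} (hk : ∀ a ∈ W, c a < k) : (byc W c k).Perm W := by
  classical
  rw [List.perm_iff_count]
  intro a
  by_cases ha : a ∈ W
  · unfold byc
    rw [List.count_flatMap]
    have h1 : ∀ i ∈ List.range k, (List.count a ∘ fun i => W.filter fun a => c a = i) i = if i = c a then W.count a else 0 := by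
      intro i _
      show List.count a (W.filter fun a => c a = i) = _
      by_cases hi : i = c a
      · rw [if_pos hi, List.count_filter]
        simp [hi]
      · rw [if_neg hi, List.count_eq_zero]
        intro h
        rw [List.mem_filter, decide_eq_true_eq] at h
        exact hi h.2.symm
    rw [List.map_congr_left h1]
    have h2 : ∀ n : ℕ, ((List.range n).map fun i => if i = c a then W.count a else 0).sum = if c a < n then W.count a else 0 := by
      intro n
      induction n with
      | zero => simp
      | succ n ih =>
        rw [List.range_succ, List.map_append, List.sum_append, ih]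
        simp only [List.map_cons, List.map_nil, List.sum_cons, List.sum_nil, add_zero]
        by_cases h3 : c a < n
        · rw [if_pos h3, if_neg (by omega), if_pos (by omega), add_zero]
        · by_cases h4 : n = c a
          · rw [if_neg h3, if_pos h4, if_pos (by omega), zero_add]
          · rw [if_neg h3, if_neg h4, if_neg (by omega)]
    rw [h2, if_pos (hk a ha)]
  · rw [List.count_eq_zero_of_not_mem ha, List.count_eq_zero_of_not_mem]
    rw [mem_byc]
    exact fun h => ha h.1

end Pool.Agent.Helper16.PD
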