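import Pool.Agent.Helper16.PD.Alg
import Pool.Agent.Helper60.EV2.Exist
import Pool.Agent.Helper2.PD.Faces

/-!
# The Dehn matrix of a planar link diagram and the walk determinant
-/

set_option autoImplicit false

namespace Pool.Agent.Helper16.PD

open Matrix Pool.Agent.Helper85.Exp Pool.Agent.Helper60.EV2

variable {P F : Type}

/-- The faces of a planar shadow: `L p`, `R p` are the faces to the left and to the right of the edge which leaves the passage `p`. At a
crossing, seen with both strands going up, the passage `p` with `lf p` leaves to the left. -/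
structure Fa (G : Sh P) (F : Type) where
  L : P → F
  R : P → F
  op_ne : ∀ p, G.op p ≠ p
  west : ∀ p, G.lf p = true → L (G.nxt.symm (G.op p)) = L p
  east : ∀ p, G.lf p = true → R (G.nxt.symm p) = R (G.op p)
  south : ∀ p, G.lf p = true → R (G.nxt.symm (G.op p)) = L (G.nxt.symm p)
  north : ∀ p, G.lf p = true → R p = L (G.op p)
  surj : ∀ f, ∃ p, L p = f ∨ R p = f

/-- The crossings, named after the passage which leaves to the left. -/
abbrev Cr (G : Sh P) := {p : P // G.lf p = true}

variable {G : Sh P}

theorem Fa.lf_op (A : Fa G F) (p : P) : G.lf (G.op p) = !G.lf p := G.lf_op p (A.op_ne p)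

/-- The passages as two copies of the crossings: the edges which leave to the left and to the right, named after the passage which they
enter. -/
noncomputable def Fa.sig (A : Fa G F) : Cr G ⊕ Cr G ≃ P :=
  Equiv.ofBijective (Sum.elim (fun x => G.nxt x.1) fun x => G.nxt (G.op x.1)) (by
    constructor
    · rintro (x | x) (y | y) h
      · exact congrArg Sum.inl (Subtype.ext (G.nxt.injective h))
      · exfalso
        have h1 : x.1 = G.op y.1 := G.nxt.injective h
        have h2 := A.lf_op y.1
        rw [← h1, x.2, y.2] at h2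
        exact absurd h2 (by simp)
      · exfalso
        have h1 : G.op x.1 = y.1 := G.nxt.injective h
        have h2 := A.lf_op x.1
        rw [h1, x.2, y.2] at h2
        exact absurd h2 (by simp)
      · exact congrArg Sum.inr (Subtype.ext (op_inj G (G.nxt.injective h)))
    · intro p
      obtain ⟨q, rfl⟩ := G.nxt.surjective p
      cases hq : G.lf q
      · refine ⟨Sum.inr ⟨G.op q, by rw [A.lf_op, hq]; rfl⟩, ?_⟩
        simp [G.op_op]
      · exact ⟨Sum.inl ⟨q, hq⟩, rfl⟩)

theorem Fa.sig_inl (A : Fa G F) (x : Cr G) : A.sig (Sum.inl x) = G.nxt x.1 := rfl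

theorem Fa.sig_inr (A : Fa G F) (x : Cr G) : A.sig (Sum.inr x) = G.nxt (G.op x.1) := rfl

variable [Fintype P] [DecidableEq P] [Fintype F] [DecidableEq F]

/-- The incidence of the faces and the edges (named after the passage which they enter). -/
def Fa.inc (A : Fa G F) (f : F) (j : P) : ℤ :=
  (if A.L (G.nxt.symm j) = f then 1 else 0) - if A.R (G.nxt.symm j) = f then 1 else 0

/-- The conservation at a crossing. -/
def kc (G : Sh P) (b : P) (j : P) (x : Cr G) : ℤ :=
  (if j = G.nxt x.1 then 1 else 0) + (if j = G.nxt (G.op x.1) then 1 else 0) - (if j = x.1 then 1 else 0) -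
    (if j = G.op x.1 then 1 else 0) + if j = b ∧ (G.nxt x.1 = b ∨ G.nxt (G.op x.1) = b) then 1 else 0

/-- The faces which do not touch the edge into `b`. -/
abbrev Fa.Fr (A : Fa G F) (b : P) := {f : F // f ≠ A.L (G.nxt.symm b) ∧ f ≠ A.R (G.nxt.symm b)}

variable {R : Type} [CommRing R]

/-- The Dehn matrix. -/
def Fa.dn (A : Fa G F) (s t : R) (D : Dg G) (x : Cr G) (f : F) : R :=
  match D.st x.1 with
  | .pos => (if A.R x.1 = f then t else 0) + (if A.L (G.nxt.symm x.1) = f then s else 0) - (if A.L x.1 = f then 1 else 0) -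
      if A.R (G.op x.1) = f then 1 else 0
  | .neg => (if A.R x.1 = f then s else 0) + (if A.L (G.nxt.symm x.1) = f then t else 0) - (if A.L x.1 = f then 1 else 0) -
      if A.R (G.op x.1) = f then 1 else 0
  | .smooth => (if A.R x.1 = f then 1 else 0) - if A.L (G.nxt.symm x.1) = f then 1 else 0

/-- The column of the status of a crossing. -/
def sc (b : P) (s t : R) (D : Dg G) (j : P) (x : Cr G) : R :=
  (1 - B G.nxt G.op (kd s t D) + single b b 1 : Matrix P P R) j (G.nxt (G.op x.1))

theorem walk_eq (A : Fa G F) (b : P) (s t : R) (D : Dg G) :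
    Pool.Agent.Helper60.EV2.W G.nxt G.op (kd s t D) b =
      dK ((Matrix.of fun (y : Cr G ⊕ Cr G) x => kc G b (A.sig y) x).map (Int.castRingHom R))
        (Matrix.of fun y x => sc b s t D (A.sig y) x) := by
  unfold Pool.Agent.Helper60.EV2.W dK
  set M : Matrix P P R := 1 - B G.nxt G.op (kd s t D) + single b b 1 with hM
  rw [← det_submatrix_equiv_self A.sig M]
  have h1 : M.submatrix A.sig A.sig * fromBlocks 1 0 1 1 =
      fromCols ((Matrix.of fun (y : Cr G ⊕ Cr G) x => kc G b (A.sig y) x).map (Int.castRingHom R))
        (Matrix.of fun y x => sc b s t D (A.sig y) x) := by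
    ext y z
    rw [Matrix.mul_apply, Fintype.sum_sum_type]
    rcases z with x | x
    · simp only [fromBlocks_apply₁₁, fromBlocks_apply₂₁, submatrix_apply, one_apply, mul_ite, mul_one, mul_zero,
        Finset.sum_ite_eq', Finset.mem_univ, if_true]
      rw [fromCols_apply_inl, Matrix.map_apply, Matrix.of_apply, A.sig_inl, A.sig_inr]
      obtain ⟨j, hj⟩ : ∃ j, j = A.sig y := ⟨_, rfl⟩
      rw [← hj]
      have hne : G.nxt x.1 ≠ G.nxt (G.op x.1) := fun h => A.op_ne x.1 (G.nxt.injective h).symm
      have hx : x.1 ≠ G.op x.1 := (A.op_ne x.1).symm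
      have hB : B G.nxt G.op (kd s t D) j (G.nxt x.1) + B G.nxt G.op (kd s t D) j (G.nxt (G.op x.1)) =
          (if j = x.1 then 1 else 0) + if j = G.op x.1 then 1 else 0 := by
        simp only [B, submatrix_apply, id_eq, Equiv.symm_apply_apply, U]
        generalize kd s t D j = kk
        by_cases h1 : j = x.1
        · cases kk <;> simp [h1, hx, hx.symm]
        · by_cases h2 : j = G.op x.1
          · cases kk <;> simp [h2, hx, hx.symm, G.op_op]
          · have h3 : x.1 ≠ G.op j := fun e => h2 (by rw [e, G.op_op])
            have h4 : G.op x.1 ≠ G.op j := fun e => h1 (op_inj G e).symm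
            cases kk <;> simp [h1, h2, Ne.symm h1, Ne.symm h2, h3, h4]
      simp only [hM, Matrix.add_apply, Matrix.sub_apply, one_apply, single_apply, kc]
      push_cast
      have hS : (if b = j ∧ b = G.nxt x.1 then (1 : R) else 0) + (if b = j ∧ b = G.nxt (G.op x.1) then 1 else 0) =
          if j = b ∧ (G.nxt x.1 = b ∨ G.nxt (G.op x.1) = b) then 1 else 0 := by
        by_cases h1 : j = b
        · by_cases h2 : G.nxt x.1 = b
          · have h3 : G.nxt (G.op x.1) ≠ b := fun e => hne (h2.trans e.symm)
            simp [h1, h2, Ne.symm h3]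
          · by_cases h3 : G.nxt (G.op x.1) = b
            · simp [h1, h3, Ne.symm h2]
            · simp [h1, h2, h3, Ne.symm h2, Ne.symm h3]
        · simp [h1, Ne.symm h1]
      simp only [Int.cast_add, Int.cast_sub, Int.cast_ite, Int.cast_one, Int.cast_zero, eq_intCast]
      linear_combination -hB + hS
    · simp only [fromBlocks_apply₁₂, fromBlocks_apply₂₂, Matrix.zero_apply, mul_zero, Finset.sum_const_zero, zero_add,
        submatrix_apply, one_apply, mul_ite, mul_one, Finset.sum_ite_eq', Finset.mem_univ, if_true]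
      rw [fromCols_apply_inr, Matrix.of_apply, A.sig_inr]
      rfl
  rw [← h1, det_mul, det_fromBlocks_zero₁₂, det_one, one_mul, mul_one]

end Pool.Agent.Helper16.PD
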