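import Pool.Agent.Helper16.PD.Dehn

/-!
# The walk determinant of a planar link diagram is the determinant of the Dehn matrix
-/

set_option autoImplicit false

namespace Pool.Agent.Helper16.PD

open Matrix Pool.Agent.Helper85.Exp Pool.Agent.Helper60.EV2
open Pool.Agent.Helper2.PD (Conn Planar Face Lf Rf)

variable {P F : Type} {G : Sh P} [Fintype P] [DecidableEq P] [Fintype F] [DecidableEq F]

omit [Fintype P] [DecidableEq P] [Fintype F] in
theorem Fa.inc_b (A : Fa G F) (b : P) (f : A.Fr b) : A.inc f.1 b = 0 := by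
  unfold Fa.inc
  rw [if_neg (fun h => f.2.1 h.symm), if_neg (fun h => f.2.2 h.symm), sub_zero]

omit [Fintype P] [DecidableEq P] [Fintype F] in
theorem Fa.inc_nxt (A : Fa G F) (f : F) (j : P) :
    A.inc f (G.nxt j) = (if A.L j = f then 1 else 0) - if A.R j = f then 1 else 0 := by
  unfold Fa.inc
  rw [Equiv.symm_apply_apply]

omit [Fintype P] [DecidableEq P] [Fintype F] in
theorem Fa.inc_x (A : Fa G F) (f : F) (x : Cr G) :
    A.inc f x.1 = (if A.L (G.nxt.symm x.1) = f then 1 else 0) - if A.R (G.op x.1) = f then 1 else 0 := by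
  unfold Fa.inc
  rw [A.east x.1 x.2]

omit [Fintype P] [DecidableEq P] [Fintype F] in
theorem Fa.inc_op (A : Fa G F) (f : F) (x : Cr G) :
    A.inc f (G.op x.1) = (if A.L x.1 = f then 1 else 0) - if A.L (G.nxt.symm x.1) = f then 1 else 0 := by
  unfold Fa.inc
  rw [A.west x.1 x.2, A.south x.1 x.2]

/-- The matrix of the conservation laws. -/
noncomputable def Fa.mK (A : Fa G F) (b : P) : Matrix (Cr G ⊕ Cr G) (Cr G) ℤ := Matrix.of fun y x => kc G b (A.sig y) x

/-- The incidence matrix. -/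
noncomputable def Fa.mE (A : Fa G F) (b : P) (ε : Cr G ≃ A.Fr b) : Matrix (Cr G) (Cr G ⊕ Cr G) ℤ := Matrix.of fun x y => A.inc (ε x).1 (A.sig y)

theorem Fa.EK (A : Fa G F) (b : P) (ε : Cr G ≃ A.Fr b) : A.mE b ε * A.mK b = 0 := by
  ext z x
  rw [Matrix.mul_apply, Matrix.zero_apply]
  show ∑ y, A.inc (ε z).1 (A.sig y) * kc G b (A.sig y) x = 0
  rw [Equiv.sum_comp A.sig fun j => A.inc (ε z).1 j * kc G b j x]
  have h0 : ∀ j, A.inc (ε z).1 j * kc G b j x = (if j = G.nxt x.1 then A.inc (ε z).1 j else 0) +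
      (if j = G.nxt (G.op x.1) then A.inc (ε z).1 j else 0) - (if j = x.1 then A.inc (ε z).1 j else 0) -
      (if j = G.op x.1 then A.inc (ε z).1 j else 0) := by
    intro j
    unfold kc
    by_cases hj : j = b
    · rw [hj, A.inc_b b (ε z)]
      simp
    · have h1 : ¬ (j = b ∧ (G.nxt x.1 = b ∨ G.nxt (G.op x.1) = b)) := fun h => hj h.1
      rw [if_neg h1]
      simp only [add_zero, mul_sub, mul_add, mul_ite, mul_one, mul_zero]
  rw [Finset.sum_congr rfl fun j _ => h0 j]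
  simp only [Finset.sum_sub_distrib, Finset.sum_add_distrib, Finset.sum_ite_eq', Finset.mem_univ, if_true]
  rw [A.inc_nxt, A.inc_nxt, A.inc_x, A.inc_op, A.north x.1 x.2]
  ring

/-- The crossing of a passage. -/
def Fa.cr (A : Fa G F) (j : P) : Cr G :=
  if h : G.lf j = true then ⟨j, h⟩ else ⟨G.op j, by rw [A.lf_op]; simpa using h⟩

omit [Fintype P] [DecidableEq P] [Fintype F] [DecidableEq F] in
theorem Fa.cr_op (A : Fa G F) (j : P) : A.cr (G.op j) = A.cr j := by
  unfold Fa.cr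
  have h1 := A.lf_op j
  by_cases h : G.lf j = true
  · rw [dif_pos h, dif_neg (by rw [h1, h]; simp)]
    exact Subtype.ext (G.op_op j)
  · rw [dif_neg h, dif_pos (by rw [h1]; simpa using h)]

omit [Fintype P] [DecidableEq P] [Fintype F] [DecidableEq F] in
theorem Fa.cr_x (A : Fa G F) (x : Cr G) : A.cr x.1 = x := by
  unfold Fa.cr
  rw [dif_pos x.2]

omit [Fintype F] [DecidableEq F] in
theorem Fa.sum_cr (A : Fa G F) {k : Type*} [CommRing k] (a : Cr G → k) (j : P) :
    ∑ x : Cr G, ((if j = x.1 then a x else 0) + if j = G.op x.1 then a x else 0) = a (A.cr j) := by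
  rw [Finset.sum_eq_single (A.cr j)]
  · unfold Fa.cr
    by_cases h : G.lf j = true
    · rw [dif_pos h]
      rw [if_pos rfl, if_neg (fun e => A.op_ne j e.symm), add_zero]
    · rw [dif_neg h]
      rw [if_neg (fun e => A.op_ne j e.symm), zero_add, if_pos (G.op_op j).symm]
  · intro x _ hx
    rw [if_neg, if_neg, add_zero]
    · intro e
      exact hx (by rw [e, A.cr_op, A.cr_x])
    · intro e
      exact hx (by rw [e, A.cr_x])
  · intro h
    exact absurd (Finset.mem_univ _) h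

theorem Fa.K_inj (A : Fa G F) (hc : Conn G) (b : P) {k : Type*} [CommRing k] (a : Cr G → k)
    (h : ((A.mK b).map (Int.castRingHom k)) *ᵥ a = 0) : a = 0 := by
  have h1 : ∀ j : P, a (A.cr (G.nxt.symm j)) - a (A.cr j) + (if j = b then a (A.cr (G.nxt.symm b)) else 0) = 0 := by
    intro j
    obtain ⟨y, rfl⟩ := A.sig.surjective j
    have h2 := congrFun h y
    rw [mulVec, dotProduct, Pi.zero_apply] at h2
    rw [← A.sum_cr a (G.nxt.symm (A.sig y)), ← A.sum_cr a (A.sig y), ← A.sum_cr a (G.nxt.symm b)]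
    have h3 : (if A.sig y = b then ∑ x : Cr G, ((if G.nxt.symm b = x.1 then a x else 0) + if G.nxt.symm b = G.op x.1 then a x else 0)
        else 0) = ∑ x : Cr G, if A.sig y = b ∧ (G.nxt x.1 = b ∨ G.nxt (G.op x.1) = b) then a x else 0 := by
      by_cases hy : A.sig y = b
      · rw [if_pos hy]
        refine Finset.sum_congr rfl fun x _ => ?_
        simp only [hy, true_and]
        have e1 : (G.nxt.symm b = x.1) ↔ (G.nxt x.1 = b) := by rw [Equiv.symm_apply_eq, eq_comm]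
        have e2 : (G.nxt.symm b = G.op x.1) ↔ (G.nxt (G.op x.1) = b) := by rw [Equiv.symm_apply_eq, eq_comm]
        simp only [e1, e2]
        by_cases h4 : G.nxt x.1 = b
        · have h5 : G.nxt (G.op x.1) ≠ b := fun e => A.op_ne x.1 (G.nxt.injective (e.trans h4.symm))
          simp [h4, h5]
        · simp [h4]
      · rw [if_neg hy]
        simp [hy]
    rw [h3, ← Finset.sum_sub_distrib, ← Finset.sum_add_distrib]
    refine Eq.trans ?_ h2
    refine Finset.sum_congr rfl fun x _ => ?_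
    show _ = ((kc G b (A.sig y) x : ℤ) : k) * a x
    unfold kc
    have e1 : (G.nxt.symm (A.sig y) = x.1) ↔ (A.sig y = G.nxt x.1) := by rw [Equiv.symm_apply_eq]
    have e2 : (G.nxt.symm (A.sig y) = G.op x.1) ↔ (A.sig y = G.nxt (G.op x.1)) := by rw [Equiv.symm_apply_eq]
    simp only [e1, e2]
    push_cast
    simp only [add_mul, sub_mul, ite_mul, one_mul, zero_mul]
    ring
  have h2 : a (A.cr (G.nxt.symm b)) - a (A.cr b) = 0 := by
    have h3 : ∑ j : P, (a (A.cr (G.nxt.symm j)) - a (A.cr j)) = 0 := by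
      rw [Finset.sum_sub_distrib, Equiv.sum_comp G.nxt.symm fun j => a (A.cr j), sub_self]
    rw [Finset.sum_eq_single b] at h3
    · exact h3
    · intro j _ hj
      have h4 := h1 j
      rwa [if_neg hj, add_zero] at h4
    · intro h
      exact absurd (Finset.mem_univ _) h
  have h3 : a (A.cr (G.nxt.symm b)) = 0 := by
    have h4 := h1 b
    rwa [if_pos rfl, h2, zero_add] at h4
  have h4 : ∀ j : P, a (A.cr (G.nxt.symm j)) = a (A.cr j) := by
    intro j
    have h5 := h1 j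
    rw [h3, ite_self, add_zero] at h5
    exact sub_eq_zero.1 h5
  have h5 : ∀ j : P, a (A.cr j) = 0 := by
    apply hc (fun j => a (A.cr j) = 0)
    · exact ⟨_, h3⟩
    · intro p
      rw [← h4 (G.nxt p), Equiv.symm_apply_apply]
    · intro p
      rw [A.cr_op]
  funext x
  rw [← A.cr_x x]
  exact h5 x.1

theorem Fa.E_inj (A : Fa G F) (hc : Conn G) (b : P) (ε : Cr G ≃ A.Fr b) {k : Type*} [CommRing k] (a : Cr G → k)
    (h : a ᵥ* ((A.mE b ε).map (Int.castRingHom k)) = 0) : a = 0 := by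
  classical
  set H : F → k := fun f => ∑ z : Cr G, if (ε z).1 = f then a z else 0 with hH
  have h1 : ∀ j : P, H (A.L j) = H (A.R j) := by
    intro j
    obtain ⟨y, hy⟩ := A.sig.surjective (G.nxt j)
    have h2 := congrFun h y
    rw [vecMul, dotProduct, Pi.zero_apply] at h2
    have h3 : H (A.L j) - H (A.R j) = 0 := by
      rw [hH]
      show (∑ z : Cr G, if (ε z).1 = A.L j then a z else 0) - (∑ z : Cr G, if (ε z).1 = A.R j then a z else 0) = 0
      rw [← Finset.sum_sub_distrib]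
      refine Eq.trans ?_ h2
      refine Finset.sum_congr rfl fun z _ => ?_
      show _ = a z * ((A.inc (ε z).1 (A.sig y) : ℤ) : k)
      rw [hy, A.inc_nxt]
      push_cast
      simp only [mul_sub, mul_ite, mul_one, mul_zero, @eq_comm _ (ε z).1]
    exact sub_eq_zero.1 h3
  have hop : ∀ p : P, H (A.L (G.op p)) = H (A.L p) := by
    intro p
    cases hl : G.lf p
    · have h3 : G.lf (G.op p) = true := by rw [A.lf_op, hl]; rfl
      have h4 := A.north (G.op p) h3
      rw [G.op_op] at h4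
      rw [h1, h4]
    · rw [← A.north p hl, ← h1]
  have hpre : ∀ p : P, H (A.L (G.nxt.symm p)) = H (A.L p) := by
    intro j
    cases hl : G.lf j
    · have h3 : G.lf (G.op j) = true := by rw [A.lf_op, hl]; rfl
      have h4 := A.west (G.op j) h3
      rw [G.op_op] at h4
      rw [h4, hop]
    · rw [← A.west j hl, h1 (G.nxt.symm (G.op j)), A.south j hl]
  have h2 : ∀ j : P, H (A.L j) = 0 := by
    apply hc (fun j => H (A.L j) = 0)
    · refine ⟨G.nxt.symm b, ?_⟩
      rw [hH]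
      refine Finset.sum_eq_zero fun z _ => ?_
      rw [if_neg (ε z).2.1]
    · intro p
      rw [← hpre (G.nxt p), Equiv.symm_apply_apply]
    · intro p
      rw [hop]
  have h3 : ∀ f : F, H f = 0 := by
    intro f
    obtain ⟨p, hp | hp⟩ := A.surj f
    · rw [← hp, h2]
    · rw [← hp, ← h1, h2]
  funext z
  have h4 := h3 (ε z).1
  rw [hH] at h4
  have h5 : (∑ w : Cr G, if (ε w).1 = (ε z).1 then a w else 0) = a z := by
    rw [Finset.sum_eq_single z]
    · rw [if_pos rfl]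
    · intro w _ hw
      rw [if_neg fun e => hw (ε.injective (Subtype.ext e))]
    · intro h
      exact absurd (Finset.mem_univ _) h
  exact h5.symm.trans h4

/-- The exponent of the entries. -/
theorem Fa.entry (A : Fa G F) (κ : F → ℤ) (hκ : ∀ p, κ (A.L p) = κ (A.R p) + 1) (b : P) {R : Type} [CommRing R] (u : Rˣ) (D : Dg G)
    (f : A.Fr b) (x : Cr G) :
    ∑ j, ((A.inc f.1 j : ℤ) : R) * sc b (u : R) ((u⁻¹ : Rˣ) : R) D j x =
      ((u ^ (κ f.1 - κ (A.R x.1) + sgn (D.st x.1)) : Rˣ) : R) * A.dn (u : R) ((u⁻¹ : Rˣ) : R) D x f.1 := by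
  have hx : x.1 ≠ G.op x.1 := (A.op_ne x.1).symm
  have hlo : G.lf (G.op x.1) = false := by rw [A.lf_op, x.2]; rfl
  have hW : κ (A.L x.1) = κ (A.R x.1) + 1 := hκ _
  have hE : κ (A.R (G.op x.1)) = κ (A.R x.1) - 1 := by
    have h1 := hκ (G.op x.1)
    rw [← A.north x.1 x.2] at h1
    omega
  have hS : κ (A.L (G.nxt.symm x.1)) = κ (A.R x.1) := by
    have h1 := hκ (G.nxt.symm x.1)
    rw [A.east x.1 x.2] at h1
    omega
  have h0 : ∑ j, ((A.inc f.1 j : ℤ) : R) * sc b (u : R) ((u⁻¹ : Rˣ) : R) D j x =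
      ((A.inc f.1 (G.nxt (G.op x.1)) : ℤ) : R) -
        (((A.inc f.1 x.1 : ℤ) : R) * U G.op (kd (u : R) ((u⁻¹ : Rˣ) : R) D) x.1 (G.op x.1) +
          ((A.inc f.1 (G.op x.1) : ℤ) : R) * U G.op (kd (u : R) ((u⁻¹ : Rˣ) : R) D) (G.op x.1) (G.op x.1)) := by
    have h1 : ∀ j, ((A.inc f.1 j : ℤ) : R) * sc b (u : R) ((u⁻¹ : Rˣ) : R) D j x =
        (if j = G.nxt (G.op x.1) then ((A.inc f.1 j : ℤ) : R) else 0) -
          ((if j = x.1 then ((A.inc f.1 j : ℤ) : R) * U G.op (kd (u : R) ((u⁻¹ : Rˣ) : R) D) j (G.op x.1) else 0) +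
          (if j = G.op x.1 then ((A.inc f.1 j : ℤ) : R) * U G.op (kd (u : R) ((u⁻¹ : Rˣ) : R) D) j (G.op x.1) else 0)) := by
      intro j
      have h2 : ((A.inc f.1 j : ℤ) : R) * (single b b (1 : R)) j (G.nxt (G.op x.1)) = 0 := by
        rw [single_apply]
        by_cases hj : b = j
        · rw [← hj, A.inc_b b f]
          simp
        · rw [if_neg (fun e => hj e.1), mul_zero]
      have h3 : U G.op (kd (u : R) ((u⁻¹ : Rˣ) : R) D) j (G.op x.1) =
          (if j = x.1 then U G.op (kd (u : R) ((u⁻¹ : Rˣ) : R) D) j (G.op x.1) else 0) +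
          if j = G.op x.1 then U G.op (kd (u : R) ((u⁻¹ : Rˣ) : R) D) j (G.op x.1) else 0 := by
        by_cases h4 : j = x.1
        · rw [if_pos h4, if_neg (fun e => hx (h4.symm.trans e)), add_zero]
        · by_cases h5 : j = G.op x.1
          · rw [if_neg h4, if_pos h5, zero_add]
          · rw [if_neg h4, if_neg h5, add_zero]
            have h6 : G.op x.1 ≠ G.op j := fun e => h4 (op_inj G e).symm
            unfold U
            generalize kd (u : R) ((u⁻¹ : Rˣ) : R) D j = kk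
            cases kk <;> simp [Ne.symm h5, h6]
      show ((A.inc f.1 j : ℤ) : R) * ((1 - B G.nxt G.op (kd (u : R) ((u⁻¹ : Rˣ) : R) D) + single b b 1 : Matrix P P R) j
        (G.nxt (G.op x.1))) = _
      rw [Matrix.add_apply, mul_add, h2, add_zero, Matrix.sub_apply, one_apply]
      have h7 : B G.nxt G.op (kd (u : R) ((u⁻¹ : Rˣ) : R) D) j (G.nxt (G.op x.1)) =
          U G.op (kd (u : R) ((u⁻¹ : Rˣ) : R) D) j (G.op x.1) := by
        simp only [B, submatrix_apply, id_eq, Equiv.symm_apply_apply]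
      rw [h7, mul_sub]
      have h8 : ((A.inc f.1 j : ℤ) : R) * U G.op (kd (u : R) ((u⁻¹ : Rˣ) : R) D) j (G.op x.1) =
          (if j = x.1 then ((A.inc f.1 j : ℤ) : R) * U G.op (kd (u : R) ((u⁻¹ : Rˣ) : R) D) j (G.op x.1) else 0) +
          (if j = G.op x.1 then ((A.inc f.1 j : ℤ) : R) * U G.op (kd (u : R) ((u⁻¹ : Rˣ) : R) D) j (G.op x.1) else 0) := by
        conv_lhs => rw [h3]
        simp only [mul_add, mul_ite, mul_zero]
      rw [← h8]
      simp only [mul_ite, mul_one, mul_zero]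
    rw [Finset.sum_congr rfl fun j _ => h1 j]
    simp only [Finset.sum_sub_distrib, Finset.sum_add_distrib, Finset.sum_ite_eq', Finset.mem_univ, if_true]
  have hu : (u : R) * ((u⁻¹ : Rˣ) : R) = 1 := u.mul_inv
  rw [h0, A.inc_nxt, A.inc_x, A.inc_op, ← A.north x.1 x.2]
  have hind : ∀ (g : F) (v : R) (n m : ℤ), κ g = n → (((u ^ (κ f.1 + m) : Rˣ) : R) * (if g = f.1 then v else 0)) =
      if g = f.1 then ((u ^ (n + m) : Rˣ) : R) * v else 0 := by
    intro g v n m hg
    by_cases hgf : g = f.1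
    · rw [if_pos hgf, if_pos hgf, ← hg, hgf]
    · rw [if_neg hgf, if_neg hgf, mul_zero]
  unfold Fa.dn
  have hst : D.st (G.op x.1) = D.st x.1 := D.st_op x.1
  cases hs : D.st x.1 with
  | pos =>
    have k1 : kd (u : R) ((u⁻¹ : Rˣ) : R) D x.1 = .un := by
      unfold kd
      rw [hs]
      simp [x.2]
    have k2 : kd (u : R) ((u⁻¹ : Rˣ) : R) D (G.op x.1) = .ov ((u : R) ^ 2) := by
      unfold kd
      rw [hst, hs]
      simp [hlo]
    have u1 : U G.op (kd (u : R) ((u⁻¹ : Rˣ) : R) D) x.1 (G.op x.1) = 0 := by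
      unfold U
      rw [k1]
      simp [Ne.symm hx]
    have u2 : U G.op (kd (u : R) ((u⁻¹ : Rˣ) : R) D) (G.op x.1) (G.op x.1) = (u : R) ^ 2 := by
      unfold U
      rw [k2]
      simp [G.op_op, Ne.symm hx]
    rw [u1, u2]
    simp only [sgn]
    rw [show κ f.1 - κ (A.R x.1) + 1 = κ f.1 + (1 - κ (A.R x.1)) by ring]
    simp only [mul_add, mul_sub]
    rw [hind _ _ _ _ rfl, hind _ _ _ _ hS, hind _ _ _ _ hW, hind _ _ _ _ hE]
    rw [show κ (A.R x.1) + (1 - κ (A.R x.1)) = 1 by ring, show κ (A.R x.1) + 1 + (1 - κ (A.R x.1)) = 2 by ring,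
      show κ (A.R x.1) - 1 + (1 - κ (A.R x.1)) = 0 by ring, zpow_one, zpow_zero]
    push_cast
    simp only [hu]
    have hz : ((u ^ (2 : ℤ) : Rˣ) : R) = (u : R) ^ 2 := by
      rw [show (2 : ℤ) = ((2 : ℕ) : ℤ) by norm_num, zpow_natCast]
      push_cast
      rfl
    rw [hz]
    split_ifs <;> simp <;> ring
  | neg =>
    have k1 : kd (u : R) ((u⁻¹ : Rˣ) : R) D x.1 = .ov (((u⁻¹ : Rˣ) : R) ^ 2) := by
      unfold kd
      rw [hs]
      simp [x.2]
    have k2 : kd (u : R) ((u⁻¹ : Rˣ) : R) D (G.op x.1) = .un := by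
      unfold kd
      rw [hst, hs]
      simp [hlo]
    have u1 : U G.op (kd (u : R) ((u⁻¹ : Rˣ) : R) D) x.1 (G.op x.1) = 1 - ((u⁻¹ : Rˣ) : R) ^ 2 := by
      unfold U
      rw [k1]
      simp [Ne.symm hx]
    have u2 : U G.op (kd (u : R) ((u⁻¹ : Rˣ) : R) D) (G.op x.1) (G.op x.1) = 1 := by
      unfold U
      rw [k2]
      simp
    rw [u1, u2]
    simp only [sgn]
    rw [show κ f.1 - κ (A.R x.1) + -1 = κ f.1 + (-1 - κ (A.R x.1)) by ring]
    simp only [mul_add, mul_sub]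
    rw [hind _ _ _ _ rfl, hind _ _ _ _ hS, hind _ _ _ _ hW, hind _ _ _ _ hE]
    rw [show κ (A.R x.1) + (-1 - κ (A.R x.1)) = -1 by ring, show κ (A.R x.1) + 1 + (-1 - κ (A.R x.1)) = 0 by ring,
      show κ (A.R x.1) - 1 + (-1 - κ (A.R x.1)) = -2 by ring, _root_.zpow_neg_one, zpow_zero]
    have hz : ((u ^ (-2 : ℤ) : Rˣ) : R) = ((u⁻¹ : Rˣ) : R) ^ 2 := by
      rw [show (-2 : ℤ) = -((2 : ℕ) : ℤ) by norm_num, _root_.zpow_neg, zpow_natCast, ← inv_pow]
      push_cast
      rfl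
    rw [hz, u.inv_mul]
    push_cast
    split_ifs <;> simp <;> ring
  | smooth =>
    have k1 : kd (u : R) ((u⁻¹ : Rˣ) : R) D x.1 = .sm := by
      unfold kd
      rw [hs]
    have k2 : kd (u : R) ((u⁻¹ : Rˣ) : R) D (G.op x.1) = .sm := by
      unfold kd
      rw [hst, hs]
    have u1 : U G.op (kd (u : R) ((u⁻¹ : Rˣ) : R) D) x.1 (G.op x.1) = 1 := by
      unfold U
      rw [k1]
      simp
    have u2 : U G.op (kd (u : R) ((u⁻¹ : Rˣ) : R) D) (G.op x.1) (G.op x.1) = 0 := by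
      unfold U
      rw [k2]
      simp [G.op_op, Ne.symm hx]
    rw [u1, u2]
    simp only [sgn]
    rw [show κ f.1 - κ (A.R x.1) + 0 = κ f.1 + (0 - κ (A.R x.1)) by ring]
    simp only [mul_sub]
    rw [hind _ _ _ _ rfl, hind _ _ _ _ hS]
    rw [show κ (A.R x.1) + (0 - κ (A.R x.1)) = 0 by ring, zpow_zero]
    push_cast
    split_ifs <;> simp

theorem wr_eq (A : Fa G F) (D : Dg G) : wr D = ∑ x : Cr G, sgn (D.st x.1) := by
  classical
  unfold wr
  rw [← Finset.sum_subtype (Finset.univ.filter fun i => G.lf i = true) (p := fun i => G.lf i = true) (by simp)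
    (fun i => sgn (D.st i)), Finset.sum_filter]
  refine Finset.sum_congr rfl fun i _ => ?_
  simp only [ne_eq, A.op_ne i, not_false_eq_true, true_and]

/-- **Block 2 of EV3.** The walk determinant of a connected planar diagram is the determinant of the Dehn matrix, up to one sign for all diagrams
on the shadow, all rings and all units. -/
theorem dehn (A : Fa G F) (hc : Conn G) (κ : F → ℤ) (hκ : ∀ p, κ (A.L p) = κ (A.R p) + 1) (b : P) (ε : Cr G ≃ A.Fr b) :
    ∃ c : ℤ, (c = 1 ∨ c = -1) ∧ ∀ (R : Type) [CommRing R] (u : Rˣ) (D : Dg G),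
      Pool.Agent.Helper60.EV2.W G.nxt G.op (kd (u : R) ((u⁻¹ : Rˣ) : R) D) b =
        (c : R) * ((u ^ (((∑ y : Cr G, κ (ε y).1) - ∑ x : Cr G, κ (A.R x.1)) + wr D) : Rˣ) : R) *
          (Matrix.of fun x y : Cr G => A.dn (u : R) ((u⁻¹ : Rˣ) : R) D x (ε y).1).det := by
  obtain ⟨c, hc1, hc2⟩ := minors (A.mK b) (A.mE b ε) (A.EK b ε) (fun p _ a h => A.K_inj hc b a h) (fun p _ a h => A.E_inj hc b ε a h)
  refine ⟨c, hc1, ?_⟩
  intro R _ u D
  rw [walk_eq A b (u : R) ((u⁻¹ : Rˣ) : R) D]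
  refine (hc2 R (Matrix.of fun y x => sc b (u : R) ((u⁻¹ : Rˣ) : R) D (A.sig y) x)).trans ?_
  rw [mul_assoc]
  congr 1
  have h1 : (A.mE b ε).map (Int.castRingHom R) * (Matrix.of fun y x => sc b (u : R) ((u⁻¹ : Rˣ) : R) D (A.sig y) x) =
      Matrix.of fun z x => ((u ^ (κ (ε z).1) : Rˣ) : R) * (Matrix.of fun z x => ((u ^ (sgn (D.st x.1) - κ (A.R x.1)) : Rˣ) : R) *
        (Matrix.of fun x y : Cr G => A.dn (u : R) ((u⁻¹ : Rˣ) : R) D x (ε y).1)ᵀ z x) z x := by
    ext z x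
    rw [Matrix.mul_apply]
    show ∑ y, ((A.inc (ε z).1 (A.sig y) : ℤ) : R) * sc b (u : R) ((u⁻¹ : Rˣ) : R) D (A.sig y) x =
      ((u ^ (κ (ε z).1) : Rˣ) : R) * (((u ^ (sgn (D.st x.1) - κ (A.R x.1)) : Rˣ) : R) * A.dn (u : R) ((u⁻¹ : Rˣ) : R) D x (ε z).1)
    rw [Equiv.sum_comp A.sig fun j => ((A.inc (ε z).1 j : ℤ) : R) * sc b (u : R) ((u⁻¹ : Rˣ) : R) D j x,
      A.entry κ hκ b u D (ε z) x, ← mul_assoc, ← Units.val_mul, ← _root_.zpow_add]
    rw [show κ (ε z).1 - κ (A.R x.1) + sgn (D.st x.1) = κ (ε z).1 + (sgn (D.st x.1) - κ (A.R x.1)) by ring]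
  unfold dE
  rw [h1, det_mul_column, det_mul_row, det_transpose, ← mul_assoc]
  congr 1
  rw [← Units.coe_prod, ← Units.coe_prod, ← Units.val_mul, ← zpow_sum', ← zpow_sum', ← _root_.zpow_add, wr_eq A D, Finset.sum_sub_distrib]
  rw [show (∑ y : Cr G, κ (ε y).1) + ((∑ x : Cr G, sgn (D.st x.1)) - ∑ x : Cr G, κ (A.R x.1)) =
    (∑ y : Cr G, κ (ε y).1) - (∑ x : Cr G, κ (A.R x.1)) + ∑ x : Cr G, sgn (D.st x.1) by ring]

/-- The base edge separates two different faces. -/
theorem Fa.ne_of (A : Fa G F) (κ : F → ℤ) (hκ : ∀ p, κ (A.L p) = κ (A.R p) + 1) (p : P) : A.L p ≠ A.R p := by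
  intro h
  have h1 := hκ p
  rw [h] at h1
  omega

theorem Fa.card_Fr (A : Fa G F) (κ : F → ℤ) (hκ : ∀ p, κ (A.L p) = κ (A.R p) + 1) (b : P)
    (hcard : Fintype.card F = Fintype.card (Cr G) + 2) : Nonempty (Cr G ≃ A.Fr b) := by
  classical
  rw [← Fintype.card_eq]
  have h1 : Fintype.card (A.Fr b) + 2 = Fintype.card F := by
    have h2 : Fintype.card (A.Fr b) = (Finset.univ \ {A.L (G.nxt.symm b), A.R (G.nxt.symm b)} : Finset F).card := by
      rw [Fintype.card_subtype]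
      congr 1
      ext f
      simp
    have h3 : ({A.L (G.nxt.symm b), A.R (G.nxt.symm b)} : Finset F).card = 2 := Finset.card_pair (A.ne_of κ hκ _)
    have h4 := Finset.card_sdiff_add_card_eq_card (Finset.subset_univ ({A.L (G.nxt.symm b), A.R (G.nxt.symm b)} : Finset F))
    rw [h2, ← h3, h4, Finset.card_univ]
  omega

/-- The faces of a shadow without trivial passages. -/
noncomputable def faceFa (G : Sh P) (ho : ∀ i, G.op i ≠ i) : Fa G (Face G) where
  L := Lf G
  R := Rf G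
  op_ne := ho
  west p hp := (Pool.Agent.Helper2.PD.corner_W hp (ho p)).symm
  east p hp := Pool.Agent.Helper2.PD.corner_E hp (ho p)
  south p hp := (Pool.Agent.Helper2.PD.corner_S hp).symm
  north p hp := Pool.Agent.Helper2.PD.corner_N hp
  surj f := Pool.Agent.Helper2.PD.face_ind (p := fun f => ∃ p, Lf G p = f ∨ Rf G p = f) (fun i => ⟨i, Or.inl rfl⟩) (fun i => ⟨i, Or.inr rfl⟩) f

/-- The number of faces of a planar shadow. -/
theorem card_face (G : Sh P) [Fintype (Face G)] (ho : ∀ i, G.op i ≠ i) (hp : Planar G) :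
    Fintype.card (Face G) = Fintype.card (Cr G) + 2 := by
  have h1 := Pool.Agent.Helper2.PD.card_P G ho
  have h2 : 2 * Nat.card (Face G) = Nat.card P + 4 := hp
  rw [Nat.card_eq_fintype_card (α := Face G)] at h2
  rw [Nat.card_eq_fintype_card (α := {x : P // G.lf x = true})] at h1
  have h3 : Fintype.card (Cr G) = Fintype.card {x : P // G.lf x = true} := rfl
  omega

end Pool.Agent.Helper16.PD
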