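import Pool.Agent.Helper16.PD.Spec
import Pool.Agent.Helper57.S4.Walk

/-!
# S4: the end of the proof

A colouring with `0 < |s| < 1` which vanishes on all circles with two sides and on both sides of one edge vanishes (`finish`). `norm2`: a colouring can be
changed by a combination of `s ^ κ` and `s ^ (-κ)` such that it vanishes at two given faces with different `κ`.
-/

set_option autoImplicit false

namespace Pool.Agent.Helper16.PD

open Pool.Agent.Helper85.Exp Pool.Agent.Helper2.PD Pool.Agent.Helper43.Pln ComplexConjugate Pool.Agent.Helper57.S4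

variable {P : Type} {G : Sh P} [Fintype P]

section

variable (ho : ∀ i, G.op i ≠ i) {c : Face G → ℂ}
  (h2 : ∀ e, kf G (Lf G e) ≠ 0 → kf G (Rf G e) ≠ 0 → c (Lf G e) = 0 ∧ c (Rf G e) = 0)

include ho h2

/-- The sum over the crossings of `(N - S)‾ W`. -/
theorem sum_W' : ∑ x : P, (if G.lf x = true then (conj (c (Rf G x)) - conj (c (Lf G (G.nxt.symm x)))) * c (Lf G x) else 0) = 0 := by
  classical
  set g : P → ℂ := fun e => if kf G (Lf G e) = 0 then conj (c (Rf G e)) * c (Lf G e) else 0 with hg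
  have h1 : ∑ e : P, (g (seifert G e) - g e) = 0 := by
    rw [Finset.sum_sub_distrib, Equiv.sum_comp (seifert G) g, sub_self]
  rw [← sum_sg (G := G) fun x => (conj (c (Rf G x)) - conj (c (Lf G (G.nxt.symm x)))) * c (Lf G x)]
  refine Eq.trans (Finset.sum_congr rfl fun e _ => ?_) h1
  show _ = g (G.op (G.nxt e)) - g e
  cases hl : G.lf (G.nxt e) with
  | true =>
    have h3 : kf G (Lf G e) ≠ 0 := fun h => kf_zero_S ho h (G.nxt e) hl (by rw [Equiv.symm_apply_apply])
    have h4 : kf G (Lf G (G.op (G.nxt e))) ≠ 0 := by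
      rw [← corner_N hl]
      exact fun h => kf_zero_N h _ hl rfl
    rw [lfo ho hl, hg]
    simp only [if_neg h3, if_neg h4, sub_self]
    simp
  | false =>
    have hx := lfo' ho hl
    have h3 := corner_W hx (ho _)
    have h4 := corner_S hx
    rw [G.op_op, Equiv.symm_apply_apply] at h3 h4
    rw [hx, if_pos rfl, hg]
    by_cases h5 : kf G (Lf G e) = 0
    · have h6 : kf G (Lf G (G.op (G.nxt e))) = 0 := by rw [h3]; exact h5
      simp only [if_pos h5, if_pos h6]
      rw [h4, h3]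
      ring
    · have h6 : kf G (Lf G (G.op (G.nxt e))) ≠ 0 := by rw [h3]; exact h5
      have h7 : kf G (Rf G (G.op (G.nxt e))) ≠ 0 := fun h => kf_zero_N h _ hx rfl
      simp only [if_neg h5, if_neg h6]
      rw [(h2 _ h6 h7).1]
      ring

/-- The sum over the crossings of `(N - S)‾ E`. -/
theorem sum_E' : ∑ x : P, (if G.lf x = true then (conj (c (Rf G x)) - conj (c (Lf G (G.nxt.symm x)))) * c (Rf G (G.op x)) else 0) = 0 := by
  classical
  set g : P → ℂ := fun e => if kf G (Rf G e) = 0 then conj (c (Lf G e)) * c (Rf G e) else 0 with hg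
  have h1 : ∑ e : P, (g (seifert G e) - g e) = 0 := by
    rw [Finset.sum_sub_distrib, Equiv.sum_comp (seifert G) g, sub_self]
  rw [← sum_nxt (G := G) fun x => (conj (c (Rf G x)) - conj (c (Lf G (G.nxt.symm x)))) * c (Rf G (G.op x))]
  refine Eq.trans (Finset.sum_congr rfl fun e _ => ?_) h1
  show _ = g (G.op (G.nxt e)) - g e
  cases hl : G.lf (G.nxt e) with
  | false =>
    have hx := lfo' ho hl
    have h3 : kf G (Rf G e) ≠ 0 := by
      have h4 := corner_S hx
      rw [G.op_op, Equiv.symm_apply_apply] at h4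
      rw [← h4]
      exact fun h => kf_zero_S ho h _ hx rfl
    have h4 : kf G (Rf G (G.op (G.nxt e))) ≠ 0 := fun h => kf_zero_N h _ hx rfl
    rw [hg]
    simp only [if_neg h3, if_neg h4, sub_self]
    simp
  | true =>
    have h3 := corner_E hl (ho _)
    rw [Equiv.symm_apply_apply] at h3
    rw [if_pos rfl, hg]
    by_cases h5 : kf G (Rf G e) = 0
    · have h6 : kf G (Rf G (G.op (G.nxt e))) = 0 := by rw [← h3]; exact h5
      simp only [if_pos h5, if_pos h6]
      rw [← corner_N hl, h3, Equiv.symm_apply_apply]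
      ring
    · have h6 : kf G (Rf G (G.op (G.nxt e))) ≠ 0 := by rw [← h3]; exact h5
      have h7 : kf G (Lf G (G.op (G.nxt e))) ≠ 0 := by
        rw [← corner_N hl]
        exact fun h => kf_zero_N h _ hl rfl
      simp only [if_neg h5, if_neg h6]
      rw [(h2 _ h7 h6).2]
      ring

variable {s : ℂ} (hs : ‖s‖ < 1) (hc : Col G s c)

include hs hc

/-- The value in front of a crossing is the value behind it. -/
theorem NS' {x : P} (hx : G.lf x = true) : c (Rf G x) = c (Lf G (G.nxt.symm x)) := by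
  classical
  set X : Finset P := Finset.univ.filter fun x => G.lf x = true with hX
  have hsum : ∀ h : P → ℂ, ∑ x : P, (if G.lf x = true then h x else 0) = ∑ x ∈ X, h x := by
    intro h
    rw [hX, Finset.sum_filter]
  have hmem : ∀ x ∈ X, G.lf x = true := by
    intro x hx
    rw [hX, Finset.mem_filter] at hx
    exact hx.2
  have h1 := sum_W' ho h2
  have h2' := sum_E' ho h2
  have h3 := sum_N_S ho (fun f => conj (c f) * c f)
  rw [hsum] at h1 h2' h3
  set Q : ℝ := ∑ x ∈ X, ‖c (Rf G x)‖ ^ 2 with hQ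
  set Z : ℂ := ∑ x ∈ X, conj (c (Rf G x)) * c (Lf G (G.nxt.symm x)) with hZ
  have hQ1 : ∑ x ∈ X, conj (c (Rf G x)) * c (Rf G x) = (Q : ℂ) := by
    rw [hQ]
    push_cast
    exact Finset.sum_congr rfl fun x _ => Complex.conj_mul' _
  have hQ2 : ∑ x ∈ X, conj (c (Lf G (G.nxt.symm x))) * c (Lf G (G.nxt.symm x)) = (Q : ℂ) := by
    rw [Finset.sum_sub_distrib, sub_eq_zero] at h3
    rw [← h3, hQ1]
  have hZ2 : ∑ x ∈ X, conj (c (Lf G (G.nxt.symm x))) * c (Rf G x) = conj Z := by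
    rw [hZ, map_sum]
    refine Finset.sum_congr rfl fun x _ => ?_
    rw [map_mul, Complex.conj_conj, mul_comm]
  have h4 : ∑ x ∈ X, (conj (c (Rf G x)) - conj (c (Lf G (G.nxt.symm x)))) *
      (c (Rf G x) + s ^ 2 * c (Lf G (G.nxt.symm x))) = 0 := by
    have h5 : ∑ x ∈ X, (conj (c (Rf G x)) - conj (c (Lf G (G.nxt.symm x)))) *
        (c (Rf G x) + s ^ 2 * c (Lf G (G.nxt.symm x))) =
        s * (∑ x ∈ X, (conj (c (Rf G x)) - conj (c (Lf G (G.nxt.symm x)))) * c (Lf G x)) +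
        s * ∑ x ∈ X, (conj (c (Rf G x)) - conj (c (Lf G (G.nxt.symm x)))) * c (Rf G (G.op x)) := by
      rw [Finset.mul_sum, Finset.mul_sum, ← Finset.sum_add_distrib]
      refine Finset.sum_congr rfl fun x hx => ?_
      rw [hc x (hmem x hx)]
      ring
    rw [h5, h1, h2']
    ring
  have h5 : (1 - s ^ 2) * (Q : ℂ) = conj Z - s ^ 2 * Z := by
    have h6 : ∑ x ∈ X, (conj (c (Rf G x)) - conj (c (Lf G (G.nxt.symm x)))) *
        (c (Rf G x) + s ^ 2 * c (Lf G (G.nxt.symm x))) = (Q : ℂ) - conj Z + s ^ 2 * Z - s ^ 2 * (Q : ℂ) := by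
      rw [← hZ2]
      nth_rewrite 2 [← hQ2]
      rw [← hQ1, hZ, Finset.mul_sum, Finset.mul_sum, ← Finset.sum_sub_distrib, ← Finset.sum_add_distrib, ← Finset.sum_sub_distrib]
      exact Finset.sum_congr rfl fun x _ => by ring
    rw [h4] at h6
    linear_combination -h6
  have hZQ := key_norm hs h5
  have h6 : ∑ x ∈ X, ‖c (Rf G x) - c (Lf G (G.nxt.symm x))‖ ^ 2 = 0 := by
    have h7 : ((∑ x ∈ X, ‖c (Rf G x) - c (Lf G (G.nxt.symm x))‖ ^ 2 : ℝ) : ℂ) = 0 := by
      push_cast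
      have h8 : ∑ x ∈ X, ((‖c (Rf G x) - c (Lf G (G.nxt.symm x))‖ : ℂ)) ^ 2 = (Q : ℂ) - Z - conj Z + (Q : ℂ) := by
        rw [← hZ2]
        nth_rewrite 2 [← hQ2]
        rw [← hQ1, hZ, ← Finset.sum_sub_distrib, ← Finset.sum_sub_distrib, ← Finset.sum_add_distrib]
        refine Finset.sum_congr rfl fun x _ => ?_
        rw [← Complex.conj_mul', map_sub]
        ring
      rw [h8, hZQ, Complex.conj_ofReal]
      ring
    exact_mod_cast h7
  have h7 := (Finset.sum_eq_zero_iff_of_nonneg fun x _ => sq_nonneg _).1 h6 x (by rw [hX, Finset.mem_filter]; exact ⟨Finset.mem_univ _, hx⟩)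
  exact sub_eq_zero.1 (norm_eq_zero.1 (pow_eq_zero_iff (two_ne_zero)|>.1 h7))

end

/-- **The end of the proof.** A colouring with `0 < |s| < 1` which vanishes on the circles with two sides and on both sides of one edge vanishes. -/
theorem finish (hG : Plane G) {s : ℂ} (hs : ‖s‖ < 1) (hs0 : s ≠ 0) {c : Face G → ℂ} (hc : Col G s c)
    (h2 : ∀ e, kf G (Lf G e) ≠ 0 → kf G (Rf G e) ≠ 0 → c (Lf G e) = 0 ∧ c (Rf G e) = 0)
    (h1 : ∃ e, c (Lf G e) = 0 ∧ c (Rf G e) = 0) (f : Face G) : c f = 0 := by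
  have hNS : ∀ x, G.lf x = true → c (Rf G x) = c (Lf G (G.nxt.symm x)) := fun x hx => NS' hG.cross h2 hs hc hx
  obtain ⟨e, he⟩ := h1
  have hall : ∀ a, (c (Lf G a) = 0 ∧ c (Rf G a) = 0) = (c (Lf G e) = 0 ∧ c (Rf G e) = 0) := by
    intro a
    refine const_edges hG.conn hG.cross (fun a => c (Lf G a) = 0 ∧ c (Rf G a) = 0) (fun x hx => ?_) a e
    have q1 := hc x hx
    have q2 := hNS x hx
    rw [← q2] at q1
    have q3 := corner_N hx
    have q4 := corner_E hx (hG.cross x)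
    have q5 := corner_W hx (hG.cross x)
    have q6 := corner_S hx
    have q7 : c (Rf G x) = 0 → (c (Lf G x) = 0 ↔ c (Rf G (G.op x)) = 0) := by
      intro h0
      rw [h0, mul_zero, add_zero] at q1
      rcases mul_eq_zero.1 q1.symm with q8 | q8
      · exact absurd q8 hs0
      · constructor
        · intro h
          rw [h, zero_add] at q8
          exact q8
        · intro h
          rw [h, add_zero] at q8
          exact q8
    refine ⟨propext ?_, propext ?_, propext ?_⟩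
    · show (c (Lf G (G.op x)) = 0 ∧ c (Rf G (G.op x)) = 0) ↔ (c (Lf G x) = 0 ∧ c (Rf G x) = 0)
      rw [← q3]
      constructor
      · rintro ⟨a1, a2⟩
        exact ⟨(q7 a1).2 a2, a1⟩
      · rintro ⟨a1, a2⟩
        exact ⟨a2, (q7 a2).1 a1⟩
    · show (c (Lf G (G.nxt.symm x)) = 0 ∧ c (Rf G (G.nxt.symm x)) = 0) ↔ (c (Lf G x) = 0 ∧ c (Rf G x) = 0)
      rw [q4, ← q2]
      constructor
      · rintro ⟨a1, a2⟩
        exact ⟨(q7 a1).2 a2, a1⟩
      · rintro ⟨a1, a2⟩
        exact ⟨a2, (q7 a2).1 a1⟩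
    · show (c (Lf G (G.nxt.symm (G.op x))) = 0 ∧ c (Rf G (G.nxt.symm (G.op x))) = 0) ↔ (c (Lf G x) = 0 ∧ c (Rf G x) = 0)
      rw [← q5, ← q6, ← q2]
  have hall' : ∀ a, c (Lf G a) = 0 ∧ c (Rf G a) = 0 := fun a => (hall a).mpr he
  exact face_ind (p := fun f => c f = 0) (fun a => (hall' a).1) (fun a => (hall' a).2) f

omit [Fintype P] in
/-- A colouring minus a combination of `s ^ κ` and `s ^ (-κ)` is a colouring. -/
theorem col_sub (ho : ∀ i, G.op i ≠ i) {s : ℂ} (hs0 : s ≠ 0) {kap : Face G → ℤ} (hk : ∀ i, kap (Lf G i) = kap (Rf G i) + 1)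
    {c : Face G → ℂ} (hc : Col G s c) (α β : ℂ) : Col G s fun f => c f - (α * s ^ kap f + β * s ^ (-kap f)) := by
  intro p hp
  have h1 := hc p hp
  have h2 := col_kap ho hs0 hk α β p hp
  show (c (Rf G p) - (α * s ^ kap (Rf G p) + β * s ^ (-kap (Rf G p)))) +
    s ^ 2 * (c (Lf G (G.nxt.symm p)) - (α * s ^ kap (Lf G (G.nxt.symm p)) + β * s ^ (-kap (Lf G (G.nxt.symm p))))) =
    s * ((c (Lf G p) - (α * s ^ kap (Lf G p) + β * s ^ (-kap (Lf G p)))) +
      (c (Rf G (G.op p)) - (α * s ^ kap (Rf G (G.op p)) + β * s ^ (-kap (Rf G (G.op p))))))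
  linear_combination h1 - h2

/-- Interpolation at two different exponents. -/
theorem interp {s : ℂ} (hs0 : s ≠ 0) (hs : ‖s‖ < 1) {m n : ℤ} (hmn : m ≠ n) (a b : ℂ) :
    ∃ α β : ℂ, α * s ^ m + β * s ^ (-m) = a ∧ α * s ^ n + β * s ^ (-n) = b := by
  have hm : s ^ m ≠ 0 := zpow_ne_zero _ hs0
  have hn : s ^ n ≠ 0 := zpow_ne_zero _ hs0
  have hd : (s ^ m) ^ 2 - (s ^ n) ^ 2 ≠ 0 := by
    intro h
    have h1 : (s ^ m) ^ 2 = (s ^ n) ^ 2 := sub_eq_zero.1 h
    have h2 := congrArg norm h1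
    rw [norm_pow, norm_pow, norm_zpow, norm_zpow] at h2
    have h3 : 0 < ‖s‖ := norm_pos_iff.2 hs0
    have h4 : ‖s‖ ^ m = ‖s‖ ^ n := by
      have h5 : 0 < ‖s‖ ^ m := zpow_pos h3 _
      have h6 : 0 < ‖s‖ ^ n := zpow_pos h3 _
      nlinarith
    exact hmn (zpow_right_injective₀ h3 hs.ne h4)
  refine ⟨(a * s ^ m - b * s ^ n) / ((s ^ m) ^ 2 - (s ^ n) ^ 2), s ^ m * s ^ n * (b * s ^ m - a * s ^ n) / ((s ^ m) ^ 2 - (s ^ n) ^ 2), ?_, ?_⟩
  · rw [zpow_neg]
    field_simp
    ring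
  · rw [zpow_neg]
    field_simp
    ring

omit [Fintype P] in
/-- The normal form: a colouring can be changed such that it vanishes at two faces with different `κ`. -/
theorem norm2 (ho : ∀ i, G.op i ≠ i) {s : ℂ} (hs0 : s ≠ 0) (hs : ‖s‖ < 1) {kap : Face G → ℤ}
    (hk : ∀ i, kap (Lf G i) = kap (Rf G i) + 1) {c : Face G → ℂ} (hc : Col G s c) {f g : Face G} (hfg : kap f ≠ kap g) :
    ∃ α β : ℂ, Col G s (fun h => c h - (α * s ^ kap h + β * s ^ (-kap h))) ∧
      c f - (α * s ^ kap f + β * s ^ (-kap f)) = 0 ∧ c g - (α * s ^ kap g + β * s ^ (-kap g)) = 0 := by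
  obtain ⟨α, β, h1, h2⟩ := interp hs0 hs hfg (c f) (c g)
  exact ⟨α, β, col_sub ho hs0 hk hc α β, by rw [h1, sub_self], by rw [h2, sub_self]⟩

omit [Fintype P] in
/-- If all colourings which vanish at `f` and `g`, `κ f ≠ κ g`, vanish, then all colourings are combinations. -/
theorem span_of (ho : ∀ i, G.op i ≠ i) {s : ℂ} (hs0 : s ≠ 0) (hs : ‖s‖ < 1) {kap : Face G → ℤ}
    (hk : ∀ i, kap (Lf G i) = kap (Rf G i) + 1) {f g : Face G} (hfg : kap f ≠ kap g)
    (hz : ∀ c : Face G → ℂ, Col G s c → c f = 0 → c g = 0 → ∀ h, c h = 0) {c : Face G → ℂ} (hc : Col G s c) :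
    ∃ α β : ℂ, ∀ h, c h = α * s ^ kap h + β * s ^ (-kap h) := by
  obtain ⟨α, β, h1, h2, h3⟩ := norm2 ho hs0 hs hk hc hfg
  exact ⟨α, β, fun h => sub_eq_zero.1 (hz _ h1 h2 h3 h)⟩

end Pool.Agent.Helper16.PD
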