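import Pool.Agent.Helper2.PD.Cases

/-!
# S4, case (D): colourings of a special diagram

A colouring of the faces with parameter `s`: `N + s² S = s (W + E)` at every crossing. If every edge has a zero face on one side and `|s| < 1`, then a
colouring which vanishes on both sides of one edge vanishes (`special_zero`), and every colouring is a combination of `s ^ κ` and `s ^ (-κ)`
(`special_span`).
-/

set_option autoImplicit false

namespace Pool.Agent.Helper16.PD

open Pool.Agent.Helper85.Exp Pool.Agent.Helper2.PD Pool.Agent.Helper43.Pln ComplexConjugate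

/-- `(1 - s²) Q = Z̄ - s² Z` with `Q` real and `|s| < 1` implies `Z = Q`. -/
theorem key_norm {s : ℂ} (hs : ‖s‖ < 1) {Q : ℝ} {Z : ℂ} (h : (1 - s ^ 2) * (Q : ℂ) = conj Z - s ^ 2 * Z) : Z = (Q : ℂ) := by
  have h1 : (Q : ℂ) - conj Z = s ^ 2 * ((Q : ℂ) - Z) := by linear_combination h
  have h2 : ‖(Q : ℂ) - conj Z‖ = ‖(Q : ℂ) - Z‖ := by
    rw [← Complex.norm_conj ((Q : ℂ) - Z)]
    simp
  have h3 : ‖(Q : ℂ) - Z‖ = ‖s‖ ^ 2 * ‖(Q : ℂ) - Z‖ := by
    have h4 := congrArg norm h1
    rw [norm_mul, norm_pow, h2] at h4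
    exact h4
  have h5 : ‖s‖ ^ 2 < 1 := by
    have := norm_nonneg s
    nlinarith
  have h6 : ‖(Q : ℂ) - Z‖ = 0 := by
    have h7 : (1 - ‖s‖ ^ 2) * ‖(Q : ℂ) - Z‖ = 0 := by linarith
    rcases mul_eq_zero.1 h7 with h8 | h8
    · linarith
    · exact h8
  exact (sub_eq_zero.1 (norm_eq_zero.1 h6)).symm

variable {P : Type} {G : Sh P}

theorem lfo (ho : ∀ i, G.op i ≠ i) {i : P} (h : G.lf i = true) : G.lf (G.op i) = false := by
  rw [lf_op' ho, h]
  rfl

theorem lfo' (ho : ∀ i, G.op i ≠ i) {i : P} (h : G.lf i = false) : G.lf (G.op i) = true := by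
  rw [lf_op' ho, h]
  rfl

/-- A function on the edges which is constant at every crossing is constant. -/
theorem const_edges (hc : Conn G) (ho : ∀ i, G.op i ≠ i) {A : Type} (φ : P → A)
    (h : ∀ x, G.lf x = true → φ (G.op x) = φ x ∧ φ (G.nxt.symm x) = φ x ∧ φ (G.nxt.symm (G.op x)) = φ x) (e e' : P) :
    φ e = φ e' := by
  have hop : ∀ v, φ (G.op v) = φ v := by
    intro v
    cases hv : G.lf v with
    | true => exact (h v hv).1
    | false =>
      have h1 := (h (G.op v) (lfo' ho hv)).1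
      rw [G.op_op] at h1
      exact h1.symm
  have hpre : ∀ v, φ (G.nxt.symm v) = φ v := by
    intro v
    cases hv : G.lf v with
    | true => exact (h v hv).2.1
    | false =>
      have h1 := (h (G.op v) (lfo' ho hv)).2.2
      rw [G.op_op, hop] at h1
      exact h1
  refine hc (fun v => φ v = φ e') ⟨e', rfl⟩ (fun v => ?_) (fun v => ?_) e
  · have h1 := hpre (G.nxt v)
    rw [Equiv.symm_apply_apply] at h1
    rw [h1]
  · rw [hop]

variable [Fintype P]

/-- The crossings at the end of the edges of the circles on their left. -/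
theorem sum_nxt (h : P → ℂ) :
    ∑ e : P, (if G.lf (G.nxt e) = true then h (G.nxt e) else 0) = ∑ x : P, if G.lf x = true then h x else 0 :=
  Equiv.sum_comp G.nxt fun x => if G.lf x = true then h x else 0

theorem sum_sg (h : P → ℂ) :
    ∑ e : P, (if G.lf (G.op (G.nxt e)) = true then h (G.op (G.nxt e)) else 0) = ∑ x : P, if G.lf x = true then h x else 0 :=
  Equiv.sum_comp (seifert G) fun x => if G.lf x = true then h x else 0

/-- The sum over the crossings of a function of the face in front is the sum of the same function of the face behind. -/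
theorem sum_N_S (ho : ∀ i, G.op i ≠ i) (w : Face G → ℂ) :
    ∑ x : P, (if G.lf x = true then w (Rf G x) - w (Lf G (G.nxt.symm x)) else 0) = 0 := by
  have h1 : ∑ e : P, (w (Lf G (seifert G e)) - w (Lf G e)) = 0 := by
    rw [Finset.sum_sub_distrib, Equiv.sum_comp (seifert G) fun e => w (Lf G e), sub_self]
  rw [← sum_nxt (G := G) fun x => w (Rf G x) - w (Lf G (G.nxt.symm x))]
  refine Eq.trans (Finset.sum_congr rfl fun e _ => ?_) h1
  show _ = w (Lf G (G.op (G.nxt e))) - w (Lf G e)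
  cases hl : G.lf (G.nxt e) with
  | true =>
    rw [if_pos rfl, corner_N hl, Equiv.symm_apply_apply]
  | false =>
    have h2 := corner_W (lfo' ho hl) (ho _)
    rw [G.op_op, Equiv.symm_apply_apply] at h2
    rw [h2]
    simp

section Special

variable (ho : ∀ i, G.op i ≠ i) (hsp : ∀ e, kf G (Lf G e) = 0 ∨ kf G (Rf G e) = 0)

include ho hsp

theorem kN {x : P} (hx : G.lf x = true) : kf G (Rf G x) ≠ 0 := fun h => kf_zero_N h x hx rfl

theorem kS {x : P} (hx : G.lf x = true) : kf G (Lf G (G.nxt.symm x)) ≠ 0 := fun h => kf_zero_S ho h x hx rfl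

theorem kW {x : P} (hx : G.lf x = true) : kf G (Lf G x) = 0 := (hsp x).resolve_right (kN ho hsp hx)

theorem kE {x : P} (hx : G.lf x = true) : kf G (Rf G (G.op x)) = 0 := by
  refine (hsp (G.op x)).resolve_left ?_
  rw [← corner_N hx]
  exact kN ho hsp hx

/-- The sum over the crossings of `(N - S)‾ W`. -/
theorem sum_W (c : Face G → ℂ) :
    ∑ x : P, (if G.lf x = true then (conj (c (Rf G x)) - conj (c (Lf G (G.nxt.symm x)))) * c (Lf G x) else 0) = 0 := by
  classical
  set g : P → ℂ := fun e => if kf G (Lf G e) = 0 then conj (c (Rf G e)) * c (Lf G e) else 0 with hg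
  have h1 : ∑ e : P, (g (seifert G e) - g e) = 0 := by
    rw [Finset.sum_sub_distrib, Equiv.sum_comp (seifert G) g, sub_self]
  rw [← sum_sg (G := G) fun x => (conj (c (Rf G x)) - conj (c (Lf G (G.nxt.symm x)))) * c (Lf G x)]
  refine Eq.trans (Finset.sum_congr rfl fun e _ => ?_) h1
  show _ = g (G.op (G.nxt e)) - g e
  cases hl : G.lf (G.nxt e) with
  | true =>
    have h2 := kS ho hsp hl
    rw [Equiv.symm_apply_apply] at h2
    have h3 : kf G (Lf G (G.op (G.nxt e))) ≠ 0 := by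
      rw [← corner_N hl]
      exact kN ho hsp hl
    rw [lfo ho hl, hg]
    simp only [if_neg h2, if_neg h3, sub_self]
    simp
  | false =>
    have hx := lfo' ho hl
    have h2 := corner_W hx (ho _)
    have h3 := corner_S hx
    rw [G.op_op, Equiv.symm_apply_apply] at h2 h3
    have h4 := kW ho hsp hx
    have h5 : kf G (Lf G e) = 0 := by rw [← h2]; exact h4
    rw [hx, if_pos rfl, hg]
    simp only [if_pos h4, if_pos h5]
    rw [h3, h2]
    ring

/-- The sum over the crossings of `(N - S)‾ E`. -/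
theorem sum_E (c : Face G → ℂ) :
    ∑ x : P, (if G.lf x = true then (conj (c (Rf G x)) - conj (c (Lf G (G.nxt.symm x)))) * c (Rf G (G.op x)) else 0) = 0 := by
  classical
  set g : P → ℂ := fun e => if kf G (Rf G e) = 0 then conj (c (Lf G e)) * c (Rf G e) else 0 with hg
  have h1 : ∑ e : P, (g (seifert G e) - g e) = 0 := by
    rw [Finset.sum_sub_distrib, Equiv.sum_comp (seifert G) g, sub_self]
  rw [← sum_nxt (G := G) fun x => (conj (c (Rf G x)) - conj (c (Lf G (G.nxt.symm x)))) * c (Rf G (G.op x))]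
  refine Eq.trans (Finset.sum_congr rfl fun e _ => ?_) h1
  show _ = g (G.op (G.nxt e)) - g e
  cases hl : G.lf (G.nxt e) with
  | false =>
    have hx := lfo' ho hl
    have h2 := kS ho hsp hx
    rw [corner_S hx, G.op_op, Equiv.symm_apply_apply] at h2
    have h3 := kN ho hsp hx
    rw [hg]
    simp only [if_neg h2, if_neg h3, sub_self]
    simp
  | true =>
    have h2 := corner_E hl (ho _)
    rw [Equiv.symm_apply_apply] at h2
    have h4 := kE ho hsp hl
    have h5 : kf G (Rf G e) = 0 := by rw [h2]; exact h4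
    rw [if_pos rfl, hg]
    simp only [if_pos h4, if_pos h5]
    rw [← corner_N hl, h2, Equiv.symm_apply_apply]
    ring

variable {s : ℂ} (hs : ‖s‖ < 1) {c : Face G → ℂ}
  (hc : ∀ p, G.lf p = true → c (Rf G p) + s ^ 2 * c (Lf G (G.nxt.symm p)) = s * (c (Lf G p) + c (Rf G (G.op p))))

include hs hc

/-- The value in front of a crossing is the value behind it. -/
theorem N_eq_S {x : P} (hx : G.lf x = true) : c (Rf G x) = c (Lf G (G.nxt.symm x)) := by
  classical
  set X : Finset P := Finset.univ.filter fun x => G.lf x = true with hX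
  have hsum : ∀ h : P → ℂ, ∑ x : P, (if G.lf x = true then h x else 0) = ∑ x ∈ X, h x := by
    intro h
    rw [hX, Finset.sum_filter]
  have hmem : ∀ x ∈ X, G.lf x = true := by
    intro x hx
    rw [hX, Finset.mem_filter] at hx
    exact hx.2
  have h1 := sum_W ho hsp c
  have h2 := sum_E ho hsp c
  have h3 := sum_N_S ho (fun f => conj (c f) * c f)
  rw [hsum] at h1 h2 h3
  set Q : ℝ := ∑ x ∈ X, ‖c (Rf G x)‖ ^ 2 with hQ
  set Z : ℂ := ∑ x ∈ X, conj (c (Rf G x)) * c (Lf G (G.nxt.symm x)) with hZ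
  have hQ1 : ∑ x ∈ X, conj (c (Rf G x)) * c (Rf G x) = (Q : ℂ) := by
    rw [hQ]
    push_cast
    exact Finset.sum_congr rfl fun x _ => Complex.conj_mul' _
  have hQ2 : ∑ x ∈ X, conj (c (Lf G (G.nxt.symm x))) * c (Lf G (G.nxt.symm x)) = (Q : ℂ) := by
    rw [Finset.sum_sub_distrib, sub_eq_zero] at h3
    rw [← h3, hQ1]
  have hZ2 : ∑ x ∈ X, conj (c (Lf G (G.nxt.symm x))) * c (Rf G x) = conj Z := by
    rw [hZ, map_sum]
    refine Finset.sum_congr rfl fun x _ => ?_
    rw [map_mul, Complex.conj_conj, mul_comm]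
  have h4 : ∑ x ∈ X, (conj (c (Rf G x)) - conj (c (Lf G (G.nxt.symm x)))) *
      (c (Rf G x) + s ^ 2 * c (Lf G (G.nxt.symm x))) = 0 := by
    have h5 : ∑ x ∈ X, (conj (c (Rf G x)) - conj (c (Lf G (G.nxt.symm x)))) *
        (c (Rf G x) + s ^ 2 * c (Lf G (G.nxt.symm x))) =
        s * (∑ x ∈ X, (conj (c (Rf G x)) - conj (c (Lf G (G.nxt.symm x)))) * c (Lf G x)) +
        s * ∑ x ∈ X, (conj (c (Rf G x)) - conj (c (Lf G (G.nxt.symm x)))) * c (Rf G (G.op x)) := by
      rw [Finset.mul_sum, Finset.mul_sum, ← Finset.sum_add_distrib]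
      refine Finset.sum_congr rfl fun x hx => ?_
      rw [hc x (hmem x hx)]
      ring
    rw [h5, h1, h2]
    ring
  have h5 : (1 - s ^ 2) * (Q : ℂ) = conj Z - s ^ 2 * Z := by
    have h6 : ∑ x ∈ X, (conj (c (Rf G x)) - conj (c (Lf G (G.nxt.symm x)))) *
        (c (Rf G x) + s ^ 2 * c (Lf G (G.nxt.symm x))) = (Q : ℂ) - conj Z + s ^ 2 * Z - s ^ 2 * (Q : ℂ) := by
      rw [← hZ2]
      nth_rewrite 2 [← hQ2]
      rw [← hQ1, hZ, Finset.mul_sum, Finset.mul_sum, ← Finset.sum_sub_distrib, ← Finset.sum_add_distrib, ← Finset.sum_sub_distrib]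
      exact Finset.sum_congr rfl fun x _ => by ring
    rw [h4] at h6
    linear_combination -h6
  have hZQ := key_norm hs h5
  have h6 : ∑ x ∈ X, ‖c (Rf G x) - c (Lf G (G.nxt.symm x))‖ ^ 2 = 0 := by
    have h7 : ((∑ x ∈ X, ‖c (Rf G x) - c (Lf G (G.nxt.symm x))‖ ^ 2 : ℝ) : ℂ) = 0 := by
      push_cast
      have h8 : ∑ x ∈ X, ((‖c (Rf G x) - c (Lf G (G.nxt.symm x))‖ : ℂ)) ^ 2 = (Q : ℂ) - Z - conj Z + (Q : ℂ) := by
        rw [← hZ2]
        nth_rewrite 2 [← hQ2]
        rw [← hQ1, hZ, ← Finset.sum_sub_distrib, ← Finset.sum_sub_distrib, ← Finset.sum_add_distrib]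
        refine Finset.sum_congr rfl fun x _ => ?_
        rw [← Complex.conj_mul', map_sub]
        ring
      rw [h8, hZQ, Complex.conj_ofReal]
      ring
    exact_mod_cast h7
  have h7 := (Finset.sum_eq_zero_iff_of_nonneg fun x _ => sq_nonneg _).1 h6 x (by rw [hX, Finset.mem_filter]; exact ⟨Finset.mem_univ _, hx⟩)
  exact sub_eq_zero.1 (norm_eq_zero.1 (pow_eq_zero_iff (two_ne_zero)|>.1 h7))

omit hs in
/-- A colouring which vanishes on both sides of an edge vanishes. -/
theorem zero_of (hcn : Conn G) (hs0 : s ≠ 0) (hNS : ∀ x, G.lf x = true → c (Rf G x) = c (Lf G (G.nxt.symm x)))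
    {e : P} (h1 : c (Lf G e) = 0) (h2 : c (Rf G e) = 0) (f : Face G) : c f = 0 := by
  classical
  set inn : P → ℂ := fun e => if kf G (Lf G e) = 0 then c (Rf G e) else c (Lf G e) with hinn
  set out : P → ℂ := fun e => if kf G (Lf G e) = 0 then c (Lf G e) else - c (Rf G e) with hout
  have hk : ∀ x, G.lf x = true → kf G (Lf G x) = 0 ∧ kf G (Lf G (G.op x)) ≠ 0 ∧ kf G (Lf G (G.nxt.symm x)) ≠ 0 ∧
      kf G (Lf G (G.nxt.symm (G.op x))) = 0 := by
    intro x hx
    refine ⟨kW ho hsp hx, ?_, kS ho hsp hx, ?_⟩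
    · rw [← corner_N hx]
      exact kN ho hsp hx
    · rw [← corner_W hx (ho x)]
      exact kW ho hsp hx
  have hci : ∀ a b, inn a = inn b := by
    refine const_edges hcn ho inn fun x hx => ?_
    obtain ⟨k1, k2, k3, k4⟩ := hk x hx
    simp only [hinn, if_pos k1, if_neg k2, if_neg k3, if_pos k4]
    refine ⟨by rw [corner_N hx], (hNS x hx).symm, ?_⟩
    rw [← corner_S hx, hNS x hx]
  have hi : ∀ a, inn a = 0 := by
    intro a
    rw [hci a e, hinn]
    simp only [h1, h2, ite_self]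
  have hN : ∀ x, G.lf x = true → c (Rf G x) = 0 := by
    intro x hx
    have := hi x
    rw [hinn] at this
    simp only [if_pos (hk x hx).1] at this
    exact this
  have hWE : ∀ x, G.lf x = true → - c (Rf G (G.op x)) = c (Lf G x) := by
    intro x hx
    have h3 := hc x hx
    rw [← hNS x hx, hN x hx, mul_zero, add_zero] at h3
    rcases mul_eq_zero.1 h3.symm with h4 | h4
    · exact absurd h4 hs0
    · linear_combination -h4
  have hco : ∀ a b, out a = out b := by
    refine const_edges hcn ho out fun x hx => ?_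
    obtain ⟨k1, k2, k3, k4⟩ := hk x hx
    simp only [hout, if_pos k1, if_neg k2, if_neg k3, if_pos k4]
    refine ⟨hWE x hx, ?_, ?_⟩
    · rw [corner_E hx (ho x), hWE x hx]
    · rw [← corner_W hx (ho x)]
  have hou : ∀ a, out a = 0 := by
    intro a
    rw [hco a e, hout]
    simp only [h1, h2, neg_zero, ite_self]
  refine face_ind (p := fun f => c f = 0) (fun a => ?_) (fun a => ?_) f
  · have i1 := hi a
    have i2 := hou a
    simp only [hinn, hout] at i1 i2
    by_cases hk : kf G (Lf G a) = 0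
    · rw [if_pos hk] at i1 i2
      exact i2
    · rw [if_neg hk] at i1 i2
      exact i1
  · have i1 := hi a
    have i2 := hou a
    simp only [hinn, hout] at i1 i2
    by_cases hk : kf G (Lf G a) = 0
    · rw [if_pos hk] at i1 i2
      exact i1
    · rw [if_neg hk] at i1 i2
      exact neg_eq_zero.1 i2

end Special

/-- **(D)** Special diagrams, `0 < |s| < 1`: a colouring which vanishes on both sides of one edge vanishes. -/
theorem special_zero (hG : Plane G) (hsp : ∀ e, kf G (Lf G e) = 0 ∨ kf G (Rf G e) = 0) {s : ℂ} (hs0 : s ≠ 0) (hs : ‖s‖ < 1)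
    {c : Face G → ℂ}
    (hc : ∀ p, G.lf p = true → c (Rf G p) + s ^ 2 * c (Lf G (G.nxt.symm p)) = s * (c (Lf G p) + c (Rf G (G.op p))))
    {e : P} (h1 : c (Lf G e) = 0) (h2 : c (Rf G e) = 0) (f : Face G) : c f = 0 :=
  zero_of hG.cross hsp hc hG.conn hs0 (fun _ hx => N_eq_S hG.cross hsp hs hc hx) h1 h2 f

omit [Fintype P] in
/-- The functions `s ^ κ` and `s ^ (-κ)` are colourings. -/
theorem col_kap (ho : ∀ i, G.op i ≠ i) {s : ℂ} (hs0 : s ≠ 0) {kap : Face G → ℤ} (hk : ∀ i, kap (Lf G i) = kap (Rf G i) + 1)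
    (α β : ℂ) (p : P) (hp : G.lf p = true) :
    (α * s ^ kap (Rf G p) + β * s ^ (-kap (Rf G p))) + s ^ 2 * (α * s ^ kap (Lf G (G.nxt.symm p)) + β * s ^ (-kap (Lf G (G.nxt.symm p)))) =
      s * ((α * s ^ kap (Lf G p) + β * s ^ (-kap (Lf G p))) + (α * s ^ kap (Rf G (G.op p)) + β * s ^ (-kap (Rf G (G.op p))))) := by
  have h1 := hk p
  have h2 := hk (G.op p)
  rw [← corner_N hp] at h2
  have h3 := hk (G.nxt.symm p)
  rw [corner_E hp (ho p)] at h3
  set a := kap (Rf G (G.op p)) with ha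
  rw [h1, h3, h2]
  have e1 : s ^ (a + 1) = s ^ a * s := zpow_add_one₀ hs0 a
  have e2 : s ^ (a + 1 + 1) = s ^ a * s * s := by rw [zpow_add_one₀ hs0, zpow_add_one₀ hs0]
  have e3 : s ^ (-(a + 1)) = s ^ (-(a + 1 + 1)) * s := by
    rw [← zpow_add_one₀ hs0]
    congr 1
    ring
  have e4 : s ^ (-a) = s ^ (-(a + 1 + 1)) * s * s := by
    rw [← zpow_add_one₀ hs0, ← zpow_add_one₀ hs0]
    congr 1
    ring
  rw [e1, e2, e3, e4]
  ring

omit [Fintype P] in
/-- If only the colouring zero vanishes on both sides of the edge `e`, all colourings are combinations of `s ^ κ` and `s ^ (-κ)`. -/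
theorem span_of_zero (ho : ∀ i, G.op i ≠ i) {s : ℂ} (hs0 : s ≠ 0) (hs : ‖s‖ < 1) {kap : Face G → ℤ}
    (hk : ∀ i, kap (Lf G i) = kap (Rf G i) + 1) (e : P)
    (hz : ∀ c : Face G → ℂ, (∀ p, G.lf p = true →
      c (Rf G p) + s ^ 2 * c (Lf G (G.nxt.symm p)) = s * (c (Lf G p) + c (Rf G (G.op p)))) →
      c (Lf G e) = 0 → c (Rf G e) = 0 → ∀ f, c f = 0)
    {c : Face G → ℂ}
    (hc : ∀ p, G.lf p = true → c (Rf G p) + s ^ 2 * c (Lf G (G.nxt.symm p)) = s * (c (Lf G p) + c (Rf G (G.op p)))) :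
    ∃ α β : ℂ, ∀ f, c f = α * s ^ kap f + β * s ^ (-kap f) := by
  have hs2 : (1 : ℂ) - s ^ 2 ≠ 0 := by
    intro h
    have h1 : s ^ 2 = 1 := by linear_combination -h
    have h2 := congrArg norm h1
    rw [norm_pow, norm_one] at h2
    have := norm_nonneg s
    nlinarith
  set k := kap (Rf G e) with hkk
  have hL := hk e
  rw [← hkk] at hL
  set a := c (Rf G e) with ha
  set b := c (Lf G e) with hb
  -- `α s^k + β s^-k = a`, `α s^(k+1) + β s^(-k-1) = b`
  set α : ℂ := s ^ (-k) * (s * b - a) / (s ^ 2 - 1) with hα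
  set β : ℂ := s ^ k * (s * b - s ^ 2 * a) / (1 - s ^ 2) with hβ
  have hsk : s ^ k ≠ 0 := zpow_ne_zero _ hs0
  have hs2' : (s : ℂ) ^ 2 - 1 ≠ 0 := by
    intro h
    exact hs2 (by linear_combination -h)
  have e1 : s ^ (k + 1) = s ^ k * s := zpow_add_one₀ hs0 k
  have e2 : s ^ (-k) = (s ^ k)⁻¹ := zpow_neg s k
  have e3 : s ^ (-(k + 1)) = (s ^ k)⁻¹ * s⁻¹ := by
    rw [zpow_neg, e1, mul_inv]
  have hA : α * s ^ k + β * s ^ (-k) = a := by
    rw [hα, hβ, e2]
    field_simp
    ring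
  have hB : α * s ^ (k + 1) + β * s ^ (-(k + 1)) = b := by
    rw [hα, hβ, e2, e1, e3]
    field_simp
    ring
  refine ⟨α, β, fun f => sub_eq_zero.1 ?_⟩
  refine hz (fun f => c f - (α * s ^ kap f + β * s ^ (-kap f))) (fun p hp => ?_) ?_ ?_ f
  · have h1 := hc p hp
    have h2 := col_kap ho hs0 hk α β p hp
    linear_combination h1 - h2
  · show c (Lf G e) - (α * s ^ kap (Lf G e) + β * s ^ (-kap (Lf G e))) = 0
    rw [hL, hB, ← hb, sub_self]
  · show c (Rf G e) - (α * s ^ kap (Rf G e) + β * s ^ (-kap (Rf G e))) = 0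
    rw [← hkk, hA, ← ha, sub_self]

/-- **(D)** Special diagrams, `0 < |s| < 1`: every colouring is a combination of `s ^ κ` and `s ^ (-κ)`. -/
theorem special_span (hG : Plane G) (hsp : ∀ e, kf G (Lf G e) = 0 ∨ kf G (Rf G e) = 0) {s : ℂ} (hs0 : s ≠ 0) (hs : ‖s‖ < 1)
    {kap : Face G → ℤ} (hk : ∀ i, kap (Lf G i) = kap (Rf G i) + 1) {c : Face G → ℂ}
    (hc : ∀ p, G.lf p = true → c (Rf G p) + s ^ 2 * c (Lf G (G.nxt.symm p)) = s * (c (Lf G p) + c (Rf G (G.op p)))) :
    ∃ α β : ℂ, ∀ f, c f = α * s ^ kap f + β * s ^ (-kap f) := by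
  obtain ⟨e⟩ := nonempty_of hG
  exact span_of_zero hG.cross hs0 hs hk e (fun c hc h1 h2 f => special_zero hG hsp hs0 hs hc h1 h2 f) hc

end Pool.Agent.Helper16.PD
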