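import Pool.Agent.Helper2.PD.Cases3
import Pool.Agent.Helper57.S4.Walk
import Pool.Agent.Helper16.PD.Spec

/-!
# S4: the left neighbours of a Seifert circle are separated

`sep`: if the circle of `e` has two different left neighbours `a`, `b`, the crossings with them do not alternate. `exists_start`: if all left neighbours are
`a` and `b`, there is a start edge such that the crossings with `b` come first and then the crossings with `a`.
The proof uses only that circulations are differences of face potentials.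
-/

set_option autoImplicit false

namespace Pool.Agent.Helper16.PD

open Pool.Agent.Helper85.Exp Pool.Agent.Helper2.PD Pool.Agent.Helper43.Pln Pool.Agent.Helper57.S4

variable {P : Type} {G : Sh P}

theorem pow_sq (n : ℕ) (x : P) : ((seifert G) ^ n) x = (Helper57.S4.sq G)^[n] x := by
  induction n with
  | zero => rfl
  | succ n ih =>
    rw [pow_succ', Equiv.Perm.mul_apply, ih, Function.iterate_succ_apply']
    rfl

theorem S_iter (e : P) (n : ℕ) : S G e ((Helper57.S4.sq G)^[n] e) := ⟨n, by rw [zpow_natCast, pow_sq]⟩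

theorem S_exists [Finite P] {e e' : P} (h : S G e e') : ∃ n : ℕ, (Helper57.S4.sq G)^[n] e = e' := by
  obtain ⟨n, hn⟩ := h.exists_nat_pow_eq
  exact ⟨n, by rw [← pow_sq]; exact hn⟩

open Classical in
/-- The flow along `n` edges of a Seifert circle. -/
noncomputable def ar (G : Sh P) (e : P) (n : ℕ) (p : P) : ℤ := ∑ j ∈ Finset.range n, if p = (Helper57.S4.sq G)^[j] e then 1 else 0

open Classical in
/-- The crossing of `a`. -/
noncomputable def xc (G : Sh P) (a x : P) : ℤ := (if x = a then 1 else 0) + (if G.op x = a then 1 else 0)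

theorem xc_op (a x : P) : xc G (G.op a) x = xc G a x := by
  classical
  have h1 : (x = G.op a) ↔ (G.op x = a) := by
    constructor
    · intro h
      rw [h, G.op_op]
    · intro h
      rw [← h, G.op_op]
  have h2 : (G.op x = G.op a) ↔ (x = a) := (op_inj G).eq_iff
  unfold xc
  rw [if_congr h1 rfl rfl, if_congr h2 rfl rfl, add_comm]

theorem dv_ar (e : P) (n : ℕ) (x : P) : ar G e n (G.nxt.symm x) + ar G e n (G.nxt.symm (G.op x)) - ar G e n x - ar G e n (G.op x) =
    xc G ((Helper57.S4.sq G)^[n] e) x - xc G e x := by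
  classical
  induction n with
  | zero => simp [ar]
  | succ n ih =>
    have hs : ∀ p, ar G e (n + 1) p = ar G e n p + if p = (Helper57.S4.sq G)^[n] e then 1 else 0 := by
      intro p
      unfold ar
      rw [Finset.sum_range_succ]
    rw [hs, hs, hs, hs, Function.iterate_succ_apply']
    set e' := (Helper57.S4.sq G)^[n] e with he'
    have h1 : xc G (Helper57.S4.sq G e') x = (if G.nxt.symm x = e' then 1 else 0) + (if G.nxt.symm (G.op x) = e' then 1 else 0) := by
      have h2 : (x = Helper57.S4.sq G e') ↔ (G.nxt.symm (G.op x) = e') := by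
        rw [Equiv.symm_apply_eq]
        constructor
        · intro h
          rw [h, op_sq]
        · intro h
          show x = G.op (G.nxt e')
          rw [← h, G.op_op]
      have h3 : (G.op x = Helper57.S4.sq G e') ↔ (G.nxt.symm x = e') := by
        rw [Equiv.symm_apply_eq]
        constructor
        · intro h
          rw [← G.op_op x, h, op_sq]
        · intro h
          show G.op x = G.op (G.nxt e')
          rw [← h]
      unfold xc
      rw [if_congr h2 rfl rfl, if_congr h3 rfl rfl, add_comm]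
    have h2 : xc G e' x = (if x = e' then 1 else 0) + (if G.op x = e' then 1 else 0) := rfl
    rw [h1]
    rw [h2] at ih
    linear_combination ih

theorem ar_zero {e p : P} (n : ℕ) (h : ¬ S G e p) : ar G e n p = 0 := by
  classical
  unfold ar
  refine Finset.sum_eq_zero fun j _ => if_neg ?_
  rintro rfl
  exact h (S_iter e j)

theorem ar_one {e : P} {m n i : ℕ} (hinj : ∀ i j, i < m → j < m → (Helper57.S4.sq G)^[i] e = (Helper57.S4.sq G)^[j] e → i = j) (hn : n ≤ m) (hi : i < n) :
    ar G e n ((Helper57.S4.sq G)^[i] e) = 1 := by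
  classical
  unfold ar
  rw [Finset.sum_eq_single i]
  · rw [if_pos rfl]
  · intro j hj hji
    rw [Finset.mem_range] at hj
    exact if_neg fun h => hji (hinj i j (by omega) (by omega) h).symm
  · intro h
    exact absurd (Finset.mem_range.2 hi) h

theorem ar_none {e : P} {m n i : ℕ} (hinj : ∀ i j, i < m → j < m → (Helper57.S4.sq G)^[i] e = (Helper57.S4.sq G)^[j] e → i = j) (hi : n ≤ i) (him : i < m) :
    ar G e n ((Helper57.S4.sq G)^[i] e) = 0 := by
  classical
  unfold ar
  refine Finset.sum_eq_zero fun j hj => if_neg fun h => ?_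
  rw [Finset.mem_range] at hj
  have := hinj i j him (by omega) h
  omega

section

variable [Fintype P]

/-- Heights separate the circles on the two sides. -/
theorem not_S_of {k : Face G → ℤ} (ho : ∀ i, G.op i ≠ i) (hk : ∀ i, k (Lf G i) = k (Rf G i) + 1) {e e' : P}
    (h : k (Lf G e') ≠ k (Lf G e)) : ¬ S G e e' := fun hs => h (kap_same ho hk hs)

/-- The potential on a circle without flow is constant. -/
theorem pot_const (ho : ∀ i, G.op i ≠ i) {y : P → ℤ} {h : Face G → ℤ} (hy : ∀ i, y i = h (Lf G i) - h (Rf G i)) {a : P}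
    (h0 : ∀ x, S G a x → y x = 0) {x : P} (hx : S G a x) : h (Rf G x) = h (Rf G a) := by
  obtain ⟨n, rfl⟩ := S_exists hx
  clear hx
  induction n with
  | zero => rfl
  | succ n ih =>
    rw [Function.iterate_succ_apply']
    set u := (Helper57.S4.sq G)^[n] a with hu
    have h1 := hy u
    have h2 := hy (Helper57.S4.sq G u)
    rw [h0 u (S_iter a n)] at h1
    have h3 : y (Helper57.S4.sq G u) = 0 := by
      have := h0 ((Helper57.S4.sq G)^[n + 1] a) (S_iter a (n + 1))
      rwa [Function.iterate_succ_apply'] at this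
    rw [h3] at h2
    cases hl : G.lf (G.nxt u) with
    | true =>
      rw [left_E ho hl]
      exact ih
    | false =>
      have h4 := right_W ho hl
      rw [h4] at h2
      omega

/-- The potential on the right side of a circle is constant if there is no flow on the right neighbours. -/
theorem pot_right (ho : ∀ i, G.op i ≠ i) {y : P → ℤ} {h : Face G → ℤ} (hy : ∀ i, y i = h (Lf G i) - h (Rf G i)) {a : P}
    (h0 : ∀ x, S G a x → G.lf x = true → y (G.op x) = 0 ∧ y (G.nxt.symm x) = 0) {x : P} (hx : S G a x) :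
    h (Rf G x) = h (Rf G a) := by
  obtain ⟨n, rfl⟩ := S_exists hx
  clear hx
  induction n with
  | zero => rfl
  | succ n ih =>
    rw [Function.iterate_succ_apply']
    have hS : S G a (sq G ((Helper57.S4.sq G)^[n] a)) := by
      have := S_iter (G := G) a (n + 1)
      rwa [Function.iterate_succ_apply'] at this
    set u := (Helper57.S4.sq G)^[n] a with hu
    cases hl : G.lf (G.nxt u) with
    | true =>
      rw [left_E ho hl]
      exact ih
    | false =>
      have hx := right_lf ho hl
      obtain ⟨h1, h2⟩ := h0 (Helper57.S4.sq G u) hS hx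
      have h3 := hy (G.op (Helper57.S4.sq G u))
      have h4 := hy (G.nxt.symm (Helper57.S4.sq G u))
      rw [h1, ← corner_N hx] at h3
      rw [h2, right_S ho hl, corner_E hx (ho _)] at h4
      omega

/-- **Separation.** The crossings of a circle with two different left neighbours do not alternate. The positions `0, p, q, r` are in cyclic order; at `0` and
`q` the left neighbour is the circle of `op e`, at `p` and `r` another circle: this is impossible. -/
theorem sep (hG : Plane G) {e : P} {m p q r : ℕ} (hinj : ∀ i j, i < m → j < m → (Helper57.S4.sq G)^[i] e = (Helper57.S4.sq G)^[j] e → i = j)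
    (hp : 0 < p) (hpq : p < q) (hqr : q < r) (hrm : r < m)
    (l0 : G.lf e = false) (lp : G.lf ((Helper57.S4.sq G)^[p] e) = false) (lq : G.lf ((Helper57.S4.sq G)^[q] e) = false) (lr : G.lf ((Helper57.S4.sq G)^[r] e) = false)
    (hb : S G (G.op e) (G.op ((Helper57.S4.sq G)^[q] e))) (ha : S G (G.op ((Helper57.S4.sq G)^[p] e)) (G.op ((Helper57.S4.sq G)^[r] e))) :
    S G (G.op e) (G.op ((Helper57.S4.sq G)^[p] e)) := by
  by_contra hab
  have ho := hG.cross
  obtain ⟨k, hk⟩ := exists_kappa hG.conn ho hG.genus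
  obtain ⟨n, hn⟩ := S_exists hb.symm
  set y : P → ℤ := fun x => ar G e q x + ar G (G.op ((Helper57.S4.sq G)^[q] e)) n x with hyd
  have hcirc : Circ G y := by
    intro x
    have h1 := dv_ar (G := G) e q x
    have h2 := dv_ar (G := G) (G.op ((Helper57.S4.sq G)^[q] e)) n x
    rw [hn, xc_op, xc_op] at h2
    simp only [hyd]
    linarith
  obtain ⟨h, hh⟩ := circ_int hG.conn ho hG.genus y hcirc
  -- heights
  have kN : ∀ x, G.lf x = false → k (Lf G (G.op x)) = k (Lf G x) + 1 := by
    intro x hx
    have h1 := kap_cross hk (lfo' ho hx)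
    rw [G.op_op] at h1
    exact h1
  have kA : ∀ i, k (Lf G ((Helper57.S4.sq G)^[i] e)) = k (Lf G e) := fun i => kap_same ho hk (S_iter e i)
  have kb : k (Lf G (G.op e)) = k (Lf G e) + 1 := kN e l0
  have kq : k (Lf G (G.op ((Helper57.S4.sq G)^[q] e))) = k (Lf G e) + 1 := by rw [kN _ lq, kA]
  have kp : k (Lf G (G.op ((Helper57.S4.sq G)^[p] e))) = k (Lf G e) + 1 := by rw [kN _ lp, kA]
  -- the flow on the circle itself
  have yA : ∀ i, y ((Helper57.S4.sq G)^[i] e) = ar G e q ((Helper57.S4.sq G)^[i] e) := by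
    intro i
    simp only [hyd]
    rw [ar_zero n (not_S_of ho hk (by rw [kA, kq]; omega)), add_zero]
  -- the potential on the right side
  have hr : ∀ x, S G e x → h (Rf G x) = h (Rf G e) := by
    intro x hx
    refine pot_right ho hh (fun x hx hl => ?_) hx
    have h1 : k (Lf G (G.op x)) = k (Lf G e) - 1 := by
      have := kap_cross hk hl
      have := kap_same ho hk hx
      omega
    have hz : ∀ z, k (Lf G z) = k (Lf G e) - 1 → y z = 0 := by
      intro z hz
      simp only [hyd]
      rw [ar_zero q (not_S_of ho hk (by rw [hz]; omega)), ar_zero n (not_S_of ho hk (by rw [hz, kq]; omega)), add_zero]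
    refine ⟨hz _ h1, hz _ ?_⟩
    have h2 := S_pre (G := G) (G.op x)
    rw [G.op_op] at h2
    rw [kap_same ho hk h2, h1]
  -- the potential on the other neighbour
  have hca : ∀ x, S G (G.op ((Helper57.S4.sq G)^[p] e)) x → h (Rf G x) = h (Rf G (G.op ((Helper57.S4.sq G)^[p] e))) := by
    intro x hx
    refine pot_const ho hh (fun x hx => ?_) hx
    simp only [hyd]
    rw [ar_zero q (not_S_of ho hk (by rw [kap_same ho hk hx, kp]; omega)), ar_zero n (fun hs => ?_), add_zero]
    exact hab ((hb.trans hs).trans hx.symm)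
  have N : ∀ i, G.lf ((Helper57.S4.sq G)^[i] e) = false → Rf G (G.op ((Helper57.S4.sq G)^[i] e)) = Lf G ((Helper57.S4.sq G)^[i] e) := by
    intro i hi
    have h1 := corner_N (lfo' ho hi)
    rw [G.op_op] at h1
    exact h1
  have e1 := hh ((Helper57.S4.sq G)^[p] e)
  have e2 := hh ((Helper57.S4.sq G)^[r] e)
  rw [yA, ar_one hinj (by omega) hpq, hr _ (S_iter e p), ← N p lp] at e1
  rw [yA, ar_none hinj hqr.le hrm, hr _ (S_iter e r), ← N r lr, hca _ ha] at e2
  omega

/-- The length of a circle. -/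
theorem exists_len (e : P) : ∃ m : ℕ, 0 < m ∧ (Helper57.S4.sq G)^[m] e = e ∧
    (∀ i j, i < m → j < m → (Helper57.S4.sq G)^[i] e = (Helper57.S4.sq G)^[j] e → i = j) ∧
    ∀ x, S G e x → ∃ i < m, (Helper57.S4.sq G)^[i] e = x := by
  have hper : e ∈ Function.periodicPts (Helper57.S4.sq G) := (sq_inj (G := G)).mem_periodicPts e
  refine ⟨Function.minimalPeriod (Helper57.S4.sq G) e, Function.minimalPeriod_pos_of_mem_periodicPts hper, Function.iterate_minimalPeriod,
    fun i j hi hj h => (Function.iterate_eq_iterate_iff_of_lt_minimalPeriod hi hj).1 h, fun x hx => ?_⟩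
  obtain ⟨n, rfl⟩ := S_exists hx
  exact ⟨n % Function.minimalPeriod (Helper57.S4.sq G) e, Nat.mod_lt _ (Function.minimalPeriod_pos_of_mem_periodicPts hper),
    Function.iterate_mod_minimalPeriod_eq⟩

theorem iter_add (i j : ℕ) (e : P) : (Helper57.S4.sq G)^[i] ((Helper57.S4.sq G)^[j] e) = (Helper57.S4.sq G)^[i + j] e :=
  (Function.iterate_add_apply _ i j e).symm

/-- The distinctness of the edges from another start edge. -/
theorem inj_shift {e : P} {m : ℕ} (hm : (Helper57.S4.sq G)^[m] e = e)
    (hinj : ∀ i j, i < m → j < m → (Helper57.S4.sq G)^[i] e = (Helper57.S4.sq G)^[j] e → i = j) (t : ℕ) (ht : t ≤ m) :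
    ∀ i j, i < m → j < m → (Helper57.S4.sq G)^[i] ((Helper57.S4.sq G)^[t] e) = (Helper57.S4.sq G)^[j] ((Helper57.S4.sq G)^[t] e) → i = j := by
  intro i j hi hj h
  have h1 := congrArg (fun x => (Helper57.S4.sq G)^[m - t] x) h
  simp only [iter_add] at h1
  have h2 : ∀ a, m - t + (a + t) = a + m := by
    intro a
    omega
  rw [h2, h2, ← iter_add, ← iter_add, hm] at h1
  exact hinj i j hi hj h1

/-- **A start edge.** If the left neighbours of the circle of `e` are the circles of `a` and `b`, there is a start edge such that the crossings with `b` come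
first, then the crossings with `a`. -/
theorem exists_start (hG : Plane G) {e a b : P} (hab : ¬ S G a b)
    (hall : ∀ x, S G e x → G.lf x = false → S G a (G.op x) ∨ S G b (G.op x))
    (hae : ∃ x, S G e x ∧ G.lf x = false ∧ S G a (G.op x)) (hbe : ∃ x, S G e x ∧ G.lf x = false ∧ S G b (G.op x)) :
    ∃ (e₀ : P) (m k : ℕ), S G e e₀ ∧ 0 < k ∧ k < m ∧ (Helper57.S4.sq G)^[m] e₀ = e₀ ∧
      (∀ i j, i < m → j < m → (Helper57.S4.sq G)^[i] e₀ = (Helper57.S4.sq G)^[j] e₀ → i = j) ∧
      (∀ x, S G e x → ∃ i < m, (Helper57.S4.sq G)^[i] e₀ = x) ∧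
      (∀ i < k, G.lf (G.nxt ((Helper57.S4.sq G)^[i] e₀)) = true → S G b (G.nxt ((Helper57.S4.sq G)^[i] e₀))) ∧
      (∀ i, k ≤ i → i < m → G.lf (G.nxt ((Helper57.S4.sq G)^[i] e₀)) = true → S G a (G.nxt ((Helper57.S4.sq G)^[i] e₀))) ∧
      G.lf (G.nxt e₀) = true ∧ G.lf (G.nxt ((Helper57.S4.sq G)^[k - 1] e₀)) = true := by
  classical
  have ho := hG.cross
  obtain ⟨xa, hxa, la, sa⟩ := hae
  obtain ⟨xb, hxb, lb, sb⟩ := hbe
  obtain ⟨m, hm0, hm, hinj, hcov⟩ := exists_len (G := G) xa
  set B : Finset ℕ := (Finset.range m).filter fun i => G.lf ((Helper57.S4.sq G)^[i] xa) = false ∧ S G b (G.op ((Helper57.S4.sq G)^[i] xa)) with hB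
  have hBm : ∀ i, i ∈ B ↔ i < m ∧ G.lf ((Helper57.S4.sq G)^[i] xa) = false ∧ S G b (G.op ((Helper57.S4.sq G)^[i] xa)) := by
    intro i
    rw [hB, Finset.mem_filter, Finset.mem_range]
  have hBn : B.Nonempty := by
    obtain ⟨i, hi, h1⟩ := hcov xb (hxa.symm.trans hxb)
    exact ⟨i, (hBm i).2 ⟨hi, by rw [h1]; exact lb, by rw [h1]; exact sb⟩⟩
  obtain ⟨p1, hp1, hmin⟩ : ∃ p ∈ B, ∀ i ∈ B, p ≤ i := ⟨B.min' hBn, B.min'_mem hBn, fun i hi => B.min'_le i hi⟩
  obtain ⟨p2, hp2, hmax⟩ : ∃ p ∈ B, ∀ i ∈ B, i ≤ p := ⟨B.max' hBn, B.max'_mem hBn, fun i hi => B.le_max' i hi⟩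
  obtain ⟨h1m, l1, s1⟩ := (hBm p1).1 hp1
  obtain ⟨h2m, l2, s2⟩ := (hBm p2).1 hp2
  have h12 : p1 ≤ p2 := hmin p2 hp2
  have h10 : 0 < p1 := by
    rcases Nat.eq_zero_or_pos p1 with h | h
    · rw [h] at s1
      exact absurd (sa.trans (Equiv.Perm.SameCycle.symm s1)) hab
    · exact h
  have hlet : ∀ y, G.lf (G.nxt y) = true → G.lf (Helper57.S4.sq G y) = false ∧ G.op (Helper57.S4.sq G y) = G.nxt y := by
    intro y hy
    rw [lf_sq ho, hy]
    exact ⟨rfl, op_sq y⟩
  have hpos : ∀ i, Helper57.S4.sq G ((Helper57.S4.sq G)^[i] ((Helper57.S4.sq G)^[p1 - 1] xa)) = (Helper57.S4.sq G)^[p1 + i] xa := by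
    intro i
    rw [← Function.iterate_succ_apply' (Helper57.S4.sq G), iter_add]
    congr 1
    omega
  have hxe : ∀ i, S G e ((Helper57.S4.sq G)^[i] xa) := fun i => hxa.trans (S_iter xa i)
  refine ⟨(Helper57.S4.sq G)^[p1 - 1] xa, m, p2 - p1 + 1, hxe _, by omega, by omega, ?_, inj_shift hm hinj _ (by omega), ?_, ?_, ?_, ?_, ?_⟩
  · rw [iter_add, add_comm, ← iter_add, hm]
  · intro x hx
    obtain ⟨i, hi, h1⟩ := hcov x (hxa.symm.trans hx)
    by_cases hip : p1 - 1 ≤ i
    · refine ⟨i - (p1 - 1), by omega, ?_⟩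
      rw [iter_add, ← h1]
      congr 1
      omega
    · refine ⟨i + m - (p1 - 1), by omega, ?_⟩
      rw [iter_add, ← h1]
      have h3 : i + m - (p1 - 1) + (p1 - 1) = i + m := by omega
      rw [h3, ← iter_add, hm]
  · intro i hi hl
    obtain ⟨q1, q2⟩ := hlet _ hl
    rw [hpos] at q1 q2
    rw [← q2]
    rcases hall _ (hxe _) q1 with h | h
    swap
    · exact h
    exfalso
    have hi0 : i ≠ 0 := by
      rintro rfl
      exact hab (h.trans (Equiv.Perm.SameCycle.symm s1))
    have hi2 : p1 + i ≠ p2 := by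
      intro h3
      rw [h3] at h
      exact hab (h.trans (Equiv.Perm.SameCycle.symm s2))
    have hsep := sep hG (e := (Helper57.S4.sq G)^[p1] xa) (m := m) (p := i) (q := p2 - p1) (r := m - p1) (inj_shift hm hinj _ (by omega))
      (by omega) (by omega) (by omega) (by omega) l1
      (by rw [iter_add, add_comm]; exact q1)
      (by rw [iter_add, Nat.sub_add_cancel h12]; exact l2)
      (by rw [iter_add, Nat.sub_add_cancel h1m.le, hm]; exact la)
      (by rw [iter_add, Nat.sub_add_cancel h12]; exact (Equiv.Perm.SameCycle.symm s1).trans s2)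
      (by rw [iter_add, iter_add, add_comm i, Nat.sub_add_cancel h1m.le, hm]; exact (Equiv.Perm.SameCycle.symm h).trans sa)
    rw [iter_add, add_comm i] at hsep
    exact hab ((h.trans (Equiv.Perm.SameCycle.symm hsep)).trans (Equiv.Perm.SameCycle.symm s1))
  · intro i hi him hl
    obtain ⟨q1, q2⟩ := hlet _ hl
    rw [hpos] at q1 q2
    rw [← q2]
    rcases hall _ (hxe _) q1 with h | h
    · exact h
    exfalso
    by_cases h3 : p1 + i < m
    · have := hmax _ ((hBm _).2 ⟨h3, q1, h⟩)
      omega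
    · have h4 : p1 + i = (p1 + i - m) + m := by omega
      rw [h4, ← iter_add, hm] at q1 h
      have := hmin _ ((hBm _).2 ⟨by omega, q1, h⟩)
      omega
  · have h3 := hpos 0
    rw [Function.iterate_zero, id_eq, add_zero] at h3
    have h4 := lf_sq ho ((Helper57.S4.sq G)^[p1 - 1] xa)
    rw [h3, l1] at h4
    simpa using h4.symm
  · have h3 := hpos (p2 - p1)
    rw [Nat.add_sub_cancel' h12] at h3
    have h4 := lf_sq ho ((Helper57.S4.sq G)^[p2 - p1] ((Helper57.S4.sq G)^[p1 - 1] xa))
    rw [h3, l2] at h4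
    rw [Nat.add_sub_cancel]
    simpa using h4.symm

/-- The left face of a circle whose crossings are all on the right. -/
theorem Lf_const (ho : ∀ i, G.op i ≠ i) {b : P} (h : ∀ x, S G b x → G.lf x = true) {x : P} (hx : S G b x) : Lf G x = Lf G b := by
  obtain ⟨n, rfl⟩ := S_exists hx
  clear hx
  induction n with
  | zero => rfl
  | succ n ih =>
    have h1 := h _ (S_iter (G := G) b (n + 1))
    rw [Function.iterate_succ_apply'] at h1 ⊢
    rw [lf_sq ho] at h1
    rw [right_W ho (by simpa using h1)]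
    exact ih

/-- **The faces at the two changes.** If all crossings of the left neighbour `b` are crossings with the circle of `e₀`, the faces on the left before the first
and after the last crossing with `b` are equal. -/
theorem face_leaf (hG : Plane G) {e₀ b : P} {m k : ℕ} (hm : (Helper57.S4.sq G)^[m] e₀ = e₀)
    (hinj : ∀ i j, i < m → j < m → (Helper57.S4.sq G)^[i] e₀ = (Helper57.S4.sq G)^[j] e₀ → i = j)
    (hcov : ∀ x, S G e₀ x → ∃ i < m, (Helper57.S4.sq G)^[i] e₀ = x) (hk0 : 0 < k) (hkm : k < m)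
    (h1 : ∀ i < k, G.lf (G.nxt ((Helper57.S4.sq G)^[i] e₀)) = true → S G b (G.nxt ((Helper57.S4.sq G)^[i] e₀)))
    (h2 : ∀ i, k ≤ i → i < m → G.lf (G.nxt ((Helper57.S4.sq G)^[i] e₀)) = true → ¬ S G b (G.nxt ((Helper57.S4.sq G)^[i] e₀)))
    (hf : G.lf (G.nxt e₀) = true) (hl : G.lf (G.nxt ((Helper57.S4.sq G)^[k - 1] e₀)) = true)
    (hleaf : ∀ x, S G b x → G.lf x = true ∧ S G e₀ (G.op x)) : Lf G e₀ = Lf G ((Helper57.S4.sq G)^[k] e₀) := by
  have ho := hG.cross
  set u := G.nxt ((Helper57.S4.sq G)^[k - 1] e₀) with hu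
  have hkk : Helper57.S4.sq G ((Helper57.S4.sq G)^[k - 1] e₀) = (Helper57.S4.sq G)^[k] e₀ := by
    rw [← Function.iterate_succ_apply' (Helper57.S4.sq G)]
    congr 1
    omega
  have hou : G.op u = (Helper57.S4.sq G)^[k] e₀ := hkk
  have hbu : S G b u := h1 (k - 1) (by omega) hl
  have hbs : S G b (Helper57.S4.sq G u) := hbu.trans (S_step u)
  obtain ⟨l1, a1⟩ := hleaf _ hbs
  have l2 : G.lf (G.nxt u) = false := by
    rw [lf_sq ho] at l1
    simpa using l1
  rw [op_sq] at a1
  obtain ⟨t, htm, ht⟩ := hcov _ a1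
  have hRu : Rf G u = Lf G ((Helper57.S4.sq G)^[k] e₀) := by rw [corner_N hl, hou]
  have ht0 : t ≠ 0 := by
    rintro rfl
    have h3 : Helper57.S4.sq G ((Helper57.S4.sq G)^[m - 1] e₀) = e₀ := by
      rw [← Function.iterate_succ_apply' (Helper57.S4.sq G)]
      have : (m - 1).succ = m := by omega
      rw [this, hm]
    have h4 : G.nxt ((Helper57.S4.sq G)^[m - 1] e₀) = Helper57.S4.sq G u := by
      have h5 := congrArg G.op h3
      rw [op_sq] at h5
      rw [h5]
      have h6 : e₀ = G.nxt u := ht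
      rw [h6]
      rfl
    exact h2 (m - 1) (by omega) (by omega) (by rw [h4]; exact l1) (by rw [h4]; exact hbs)
  have htp : G.nxt ((Helper57.S4.sq G)^[t - 1] e₀) = Helper57.S4.sq G u := by
    have h3 : Helper57.S4.sq G ((Helper57.S4.sq G)^[t - 1] e₀) = (Helper57.S4.sq G)^[t] e₀ := by
      rw [← Function.iterate_succ_apply' (Helper57.S4.sq G)]
      congr 1
      omega
    have h5 := congrArg G.op h3
    rw [op_sq, ht] at h5
    rw [h5]
    rfl
  have htk : t ≤ k := by
    by_contra hcon
    exact h2 (t - 1) (by omega) (by omega) (by rw [htp]; exact l1) (by rw [htp]; exact hbs)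
  by_cases ht1 : t = 1
  · -- the next crossing is the first one
    subst ht1
    have h3 : G.nxt e₀ = Helper57.S4.sq G u := htp
    have h4 := right_S ho l2
    rw [← h3, Equiv.symm_apply_apply] at h4
    rw [h4, hRu]
  exfalso
  obtain ⟨kp, hk⟩ := exists_kappa hG.conn ho hG.genus
  set y : P → ℤ := fun x => ar G u 1 x + ar G ((Helper57.S4.sq G)^[t] e₀) (k - t) x with hyd
  have hcirc : Circ G y := by
    intro x
    have e1 := dv_ar (G := G) u 1 x
    have e2 := dv_ar (G := G) ((Helper57.S4.sq G)^[t] e₀) (k - t) x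
    rw [iter_add, Nat.sub_add_cancel htk, ← hou, xc_op, ht] at e2
    rw [Function.iterate_one, ← xc_op (Helper57.S4.sq G u), op_sq] at e1
    simp only [hyd]
    rw [ht]
    linarith
  obtain ⟨h, hh⟩ := circ_int hG.conn ho hG.genus y hcirc
  have kA : ∀ i, kp (Lf G ((Helper57.S4.sq G)^[i] e₀)) = kp (Lf G e₀) := fun i => kap_same ho hk (S_iter e₀ i)
  have ku : kp (Lf G u) = kp (Lf G e₀) + 1 := by
    have := kap_cross hk hl
    rw [hou, kA] at this
    exact this
  have hr : ∀ x, S G e₀ x → h (Rf G x) = h (Rf G e₀) := by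
    intro x hx
    refine pot_right ho hh (fun x hx hl => ?_) hx
    have e1 : kp (Lf G (G.op x)) = kp (Lf G e₀) - 1 := by
      have := kap_cross hk hl
      have := kap_same ho hk hx
      omega
    have hz : ∀ z, kp (Lf G z) = kp (Lf G e₀) - 1 → y z = 0 := by
      intro z hz
      simp only [hyd]
      rw [ar_zero 1 (not_S_of ho hk (by rw [hz, ku]; omega)), ar_zero (k - t) (not_S_of ho hk (by rw [hz, kA]; omega)), add_zero]
    refine ⟨hz _ e1, hz _ ?_⟩
    have e2 := S_pre (G := G) (G.op x)
    rw [G.op_op] at e2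
    rw [kap_same ho hk e2, e1]
  have yA : ∀ i, y ((Helper57.S4.sq G)^[i] e₀) = ar G ((Helper57.S4.sq G)^[t] e₀) (k - t) ((Helper57.S4.sq G)^[i] e₀) := by
    intro i
    simp only [hyd]
    rw [ar_zero 1 (not_S_of ho hk (by rw [kA, ku]; omega)), zero_add]
  have hinj' := inj_shift hm hinj t htm.le
  have y1 : y ((Helper57.S4.sq G)^[k] e₀) = 0 := by
    rw [yA]
    have := ar_none (G := G) (n := k - t) (i := k - t) hinj' le_rfl (by omega)
    rw [iter_add, Nat.sub_add_cancel htk] at this
    exact this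
  have y2 : y ((Helper57.S4.sq G)^[1] e₀) = 0 := by
    rw [yA]
    have := ar_none (G := G) (n := k - t) (i := m + 1 - t) hinj' (by omega) (by omega)
    have h3 : m + 1 - t + t = 1 + m := by omega
    rw [iter_add, h3, ← iter_add, hm] at this
    exact this
  have e1 := hh ((Helper57.S4.sq G)^[k] e₀)
  rw [y1, hr _ (S_iter e₀ k), ← hRu] at e1
  have e2 := hh ((Helper57.S4.sq G)^[1] e₀)
  rw [y2, hr _ (S_iter e₀ 1), Function.iterate_one] at e2
  -- the edges of `b`
  have yb : ∀ x, S G b x → y x = ar G u 1 x := by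
    intro x hx
    simp only [hyd]
    rw [ar_zero (k - t) (not_S_of ho hk (by rw [kA, kap_same ho hk (hbu.symm.trans hx), ku]; omega)), add_zero]
  have hLb : ∀ x, S G b x → Lf G x = Lf G b := fun x hx => Lf_const ho (fun x hx => (hleaf x hx).1) hx
  have e3 := hh u
  rw [yb u hbu, hLb u hbu] at e3
  have hw : S G b (G.nxt e₀) := h1 0 hk0 hf
  have e4 := hh (G.nxt e₀)
  rw [yb _ hw, hLb _ hw, left_N hf] at e4
  have a2 : ar G u 1 u = 1 := by
    unfold ar
    rw [Finset.sum_range_one, Function.iterate_zero, id_eq, if_pos rfl]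
  have a3 : ar G u 1 (G.nxt e₀) = 1 := by
    rw [e4]
    rw [a2] at e3
    omega
  have a4 : G.nxt e₀ = u := by
    by_contra hcon
    have : ar G u 1 (G.nxt e₀) = 0 := by
      unfold ar
      rw [Finset.sum_range_one, Function.iterate_zero, id_eq, if_neg hcon]
    omega
  have a5 : e₀ = (Helper57.S4.sq G)^[k - 1] e₀ := G.nxt.injective a4
  have a6 := hinj 0 (k - 1) (by omega) (by omega) a5
  omega

end

end Pool.Agent.Helper16.PD
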